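import Pool.Agent.H910R3.ISO.Stmts

/-!
# Averaging over the bits at finitely many positions
-/

set_option autoImplicit false

namespace Pool.Agent.H910R3.ISO.Avg2

open MeasureTheory Pool.Agent.H628R3.RO Finset

lemma ovr_pos {ι : Type} {pos : ι → List Bool} (hpos : Function.Injective pos) (b : ι → Bool)
    (r : Oracle) (i : ι) : ovr pos b r (pos i) = b i := by
  classical
  have h : ∃ j, pos j = pos i := ⟨i, rfl⟩
  unfold ovr
  rw [dif_pos h]
  exact congrArg b (hpos h.choose_spec)

lemma ovr_of_ne {ι : Type} {pos : ι → List Bool} (b : ι → Bool)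
    (r : Oracle) {q : List Bool} (hq : ∀ i, pos i ≠ q) : ovr pos b r q = r q := by
  classical
  unfold ovr
  rw [dif_neg]
  rintro ⟨i, hi⟩
  exact hq i hi

lemma measurable_ovr {ι : Type} {pos : ι → List Bool} (hpos : Function.Injective pos)
    (b : ι → Bool) : Measurable (fun r : Oracle => ovr pos b r) := by
  refine measurable_pi_lambda _ fun q => ?_
  by_cases h : ∃ i, pos i = q
  · obtain ⟨i, rfl⟩ := h
    simp only [ovr_pos hpos]
    exact measurable_const
  · push Not at h
    simp only [ovr_of_ne b _ h]
    exact measurable_pi_apply _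

/-- halving -/
lemma two_prob (x : List Bool) {S : Set Oracle} (hS : MeasurableSet S) :
    2 * prob S = prob ((fun A : Oracle => Function.update A x true) ⁻¹' S) +
      prob ((fun A : Oracle => Function.update A x false) ⁻¹' S) := by
  have h1 : randomOracle S =
      2⁻¹ * randomOracle ((fun A : Oracle => Function.update A x true) ⁻¹' S) +
      2⁻¹ * randomOracle ((fun A : Oracle => Function.update A x false) ⁻¹' S) := by
    conv_lhs => rw [← randomOracle_eq_upd x]
    rw [Measure.add_apply, Measure.smul_apply, Measure.smul_apply,
      Measure.map_apply (measurable_upd x true) hS,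
      Measure.map_apply (measurable_upd x false) hS]
    simp only [smul_eq_mul]
  simp only [prob, measureReal_def, h1]
  rw [ENNReal.toReal_add (ENNReal.mul_ne_top (by simp) (measure_ne_top _ _))
    (ENNReal.mul_ne_top (by simp) (measure_ne_top _ _)), ENNReal.toReal_mul, ENNReal.toReal_mul]
  simp only [ENNReal.toReal_inv, ENNReal.toReal_ofNat]
  ring

/-- the sum does not depend on the decidability instance -/
theorem sum_dec {ι : Type} [Fintype ι] (d1 d2 : DecidableEq ι) (f : (ι → Bool) → ℝ) :
    (@Finset.sum _ _ _ (@Finset.univ (ι → Bool) (@Pi.instFintype ι (fun _ => Bool) d1 _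
      (fun _ => Bool.fintype))) f) =
    (@Finset.sum _ _ _ (@Finset.univ (ι → Bool) (@Pi.instFintype ι (fun _ => Bool) d2 _
      (fun _ => Bool.fintype))) f) := by
  obtain rfl : d1 = d2 := Subsingleton.elim _ _
  rfl

open Classical in
/-- the averaging identity -/
theorem avg (ι : Type) [Fintype ι] : ∀ (pos : ι → List Bool), Function.Injective pos →
    ∀ S : Set Oracle, MeasurableSet S →
      (2 : ℝ) ^ Fintype.card ι * prob S = ∑ b : ι → Bool, prob {r | ovr pos b r ∈ S} := by
  refine Fintype.induction_empty_option (P := fun ι _ => ∀ (pos : ι → List Bool),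
    Function.Injective pos → ∀ S : Set Oracle, MeasurableSet S →
      (2 : ℝ) ^ Fintype.card ι * prob S = ∑ b : ι → Bool, prob {r | ovr pos b r ∈ S}) ?_ ?_ ?_ ι
  · intro α β _ e ih pos hpos S hS
    letI := Fintype.ofEquiv β e.symm
    have h := ih (pos ∘ e) (hpos.comp e.injective) S hS
    rw [Fintype.card_congr e] at h
    rw [h]
    refine Fintype.sum_equiv (Equiv.arrowCongr e (Equiv.refl Bool)) _ _ ?_
    intro b
    congr 1
    ext r
    have : ovr (pos ∘ e) b r = ovr pos (Equiv.arrowCongr e (Equiv.refl Bool) b) r := by
      funext q
      by_cases hq : ∃ i, pos i = q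
      · obtain ⟨i, rfl⟩ := hq
        rw [ovr_pos hpos]
        have h2 := ovr_pos (hpos.comp e.injective) b r (e.symm i)
        simp only [Function.comp_apply, Equiv.apply_symm_apply] at h2
        rw [h2]
        rfl
      · push Not at hq
        exact (ovr_of_ne _ _ (fun i => hq (e i))).trans (ovr_of_ne _ _ hq).symm
    simp only [Set.mem_ofPred_eq, this]
  · intro pos hpos S hS
    have h : ∀ b : PEmpty → Bool, {r : Oracle | ovr pos b r ∈ S} = S := by
      intro b
      ext r
      have : ovr pos b r = r := by
        funext q
        exact ovr_of_ne b r (fun i => i.elim)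
      simp only [Set.mem_ofPred_eq, this]
    simp only [h]
    simp
  · intro α _ ih pos hpos S hS
    set x := pos none with hx
    set pos' : α → List Bool := fun i => pos (some i) with hpos'
    have hinj : Function.Injective pos' := fun i j hij => Option.some_injective _ (hpos hij)
    have h1 : ∀ t : Bool, (2 : ℝ) ^ Fintype.card α *
        prob ((fun A : Oracle => Function.update A x t) ⁻¹' S) =
        ∑ b : α → Bool, prob {r | ovr pos (fun o => o.elim t b) r ∈ S} := by
      intro t
      rw [ih pos' hinj _ (measurable_upd x t hS)]
      refine Finset.sum_congr rfl fun b _ => ?_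
      congr 1
      ext r
      have h2 : Function.update (ovr pos' b r) x t = ovr pos (fun o => o.elim t b) r := by
        funext q
        by_cases hq : ∃ i, pos i = q
        · obtain ⟨i, rfl⟩ := hq
          rw [ovr_pos hpos]
          cases i with
          | none => simp [hx]
          | some i =>
            have hne : pos (some i) ≠ x := fun h => by
              have := hpos h
              exact Option.some_ne_none i this
            rw [Function.update_of_ne hne]
            exact ovr_pos hinj b r i
        · push Not at hq
          rw [ovr_of_ne _ _ hq, Function.update_of_ne (fun h => hq none h.symm),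
            ovr_of_ne _ _ (fun i => hq (some i))]
      simp only [Set.mem_preimage, Set.mem_ofPred_eq, h2]
    have h3 := two_prob x hS
    rw [Fintype.card_option, pow_succ, mul_assoc, h3, mul_add, h1 true, h1 false]
    have h4 : ∑ b : Option α → Bool, prob {r | ovr pos b r ∈ S} =
        ∑ p : Bool × (α → Bool), prob {r | ovr pos (fun o => o.elim p.1 p.2) r ∈ S} := by
      refine Fintype.sum_equiv (Equiv.piOptionEquivProd (β := fun _ : Option α => Bool)) _ _ ?_
      intro b
      have h5 : (fun o : Option α =>
          o.elim ((Equiv.piOptionEquivProd (β := fun _ : Option α => Bool)) b).1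
            ((Equiv.piOptionEquivProd (β := fun _ : Option α => Bool)) b).2) = b := by
        funext o
        cases o <;> rfl
      rw [h5]
    rw [Fintype.sum_prod_type, Fintype.sum_bool] at h4
    exact h4.symm.trans (sum_dec _ _ _)

open Classical in
theorem taskAvg : TaskAvg := by
  intro ι _ pos hpos S hS B hB
  have h1 := avg ι pos hpos S hS
  have hmeas : ∀ b : ι → Bool, MeasurableSet {r : Oracle | ovr pos b r ∈ S} :=
    fun b => measurable_ovr hpos b hS
  have h2 : ∑ b : ι → Bool, prob {r | ovr pos b r ∈ S} =
      ∫ r, ((Finset.univ.filter fun b : ι → Bool => ovr pos b r ∈ S).card : ℝ) ∂randomOracle := by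
    have h3 : ∀ r : Oracle, ((Finset.univ.filter fun b : ι → Bool => ovr pos b r ∈ S).card : ℝ) =
        ∑ b : ι → Bool, Set.indicator {r : Oracle | ovr pos b r ∈ S} (fun _ => (1 : ℝ)) r := by
      intro r
      rw [Finset.card_filter, Nat.cast_sum]
      refine Finset.sum_congr rfl fun b _ => ?_
      simp only [Set.indicator_apply, Set.mem_ofPred_eq]
      split_ifs <;> simp
    simp only [h3]
    rw [integral_finsetSum]
    · refine Finset.sum_congr rfl fun b _ => ?_
      rw [integral_indicator (hmeas b)]
      simp [prob]
    · intro b _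
      exact (integrable_const (1 : ℝ)).indicator (hmeas b)
  have h4 : ∫ r, ((Finset.univ.filter fun b : ι → Bool => ovr pos b r ∈ S).card : ℝ)
      ∂randomOracle ≤ B * 2 ^ Fintype.card ι := by
    calc ∫ r, ((Finset.univ.filter fun b : ι → Bool => ovr pos b r ∈ S).card : ℝ) ∂randomOracle
        ≤ ∫ _r : Oracle, B * 2 ^ Fintype.card ι ∂randomOracle := by
          refine integral_mono_of_nonneg (Filter.Eventually.of_forall fun r => Nat.cast_nonneg _)
            (integrable_const _) (Filter.Eventually.of_forall fun r => hB r)
      _ = B * 2 ^ Fintype.card ι := by simp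
  rw [← h2, ← h1] at h4
  have h5 : (0 : ℝ) < 2 ^ Fintype.card ι := by positivity
  nlinarith [h4, h5]

end Pool.Agent.H910R3.ISO.Avg2
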