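import Pool.Agent.H910R3.ISO.Stmts

set_option autoImplicit false

namespace Pool.Agent.H910R3.ISO

open MeasureTheory Pool.Agent.NPC Pool.Agent.H628R3.RO

theorem prob_mono' {S S' : Set Oracle} (h : S ⊆ S') : prob S ≤ prob S' :=
  measureReal_mono h

theorem prob_union_le' (S S' : Set Oracle) : prob (S ∪ S') ≤ prob S + prob S' :=
  measureReal_union_le _ _

/-- strings of length `n` -/
def sEq (n : ℕ) : Finset (List Bool) :=
  (Finset.univ : Finset (List.Vector Bool n)).image (fun v => v.1)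

theorem mem_sEq {n : ℕ} {x : List Bool} : x ∈ sEq n ↔ x.length = n := by
  unfold sEq
  rw [Finset.mem_image]
  constructor
  · rintro ⟨v, _, rfl⟩
    exact v.2
  · intro h
    exact ⟨⟨x, h⟩, Finset.mem_univ _, rfl⟩

theorem card_sEq (n : ℕ) : (sEq n).card ≤ 2 ^ n := by
  unfold sEq
  refine Finset.card_image_le.trans ?_
  rw [Finset.card_univ, card_vector, Fintype.card_bool]

/-- strings of length at most `n` -/
def sLe (n : ℕ) : Finset (List Bool) := (Finset.range (n + 1)).biUnion sEq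

theorem mem_sLe {n : ℕ} {x : List Bool} : x ∈ sLe n ↔ x.length ≤ n := by
  unfold sLe
  rw [Finset.mem_biUnion]
  constructor
  · rintro ⟨k, hk, hx⟩
    rw [mem_sEq] at hx
    rw [Finset.mem_range] at hk
    omega
  · intro h
    exact ⟨x.length, Finset.mem_range.2 (by omega), mem_sEq.2 rfl⟩

theorem card_sLe (n : ℕ) : (sLe n).card ≤ 2 ^ (n + 1) := by
  unfold sLe
  refine Finset.card_biUnion_le.trans ?_
  have : ∀ n, ∑ u ∈ Finset.range (n + 1), (sEq u).card ≤ 2 ^ (n + 1) := by
    intro n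
    induction n with
    | zero => simpa using (card_sEq 0).trans (by norm_num)
    | succ n ih =>
      rw [Finset.sum_range_succ]
      have := card_sEq (n + 1)
      have h : 2 ^ (n + 1 + 1) = 2 ^ (n + 1) + 2 ^ (n + 1) := by ring
      omega
  exact this n

/-- the length of the instances -/
noncomputable def iL : Polynomial ℕ :=
  Polynomial.C 18 * Polynomial.X + Polynomial.C 17

theorem iL_eval (n : ℕ) : iL.eval n = 18 * n + 17 := by
  simp [iL]

theorem length_pair (x u : List Bool) (h : u.length = 4 * mm x.length) :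
    (pairBits x u).length = iL.eval x.length := by
  rw [length_pairBits, h, iL_eval]
  unfold mm
  ring

/-- the padding polynomial for `M` -/
noncomputable def pM (M : Alg) : Polynomial ℕ :=
  M.out_local.choose.comp iL + (Polynomial.C 12 * Polynomial.X + Polynomial.C 12)

theorem pM_ge (M : Alg) (n : ℕ) : 3 * mm n ≤ (pM M).eval n := by
  unfold pM mm
  simp only [Polynomial.eval_add, Polynomial.eval_mul, Polynomial.eval_C, Polynomial.eval_X]
  omega

/-- bound for the number of questions -/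
noncomputable def kM (M : Alg) : Polynomial ℕ :=
  M.p.comp iL + (Polynomial.C 20 * Polynomial.X + Polynomial.C 20)

theorem locM (M : Alg) (x : List Bool) : LocM M (pM M) x (M.p.eval (iL.eval x.length)) := by
  intro R u hu
  obtain ⟨Q, h1, h2, h3⟩ := M.out_local.choose_spec R (pairBits x u)
  rw [length_pair x u hu] at h1 h2
  refine ⟨Q, h1, fun q hq => (h2 q hq).trans ?_, h3⟩
  unfold pM
  rw [Polynomial.eval_add, Polynomial.eval_comp]
  exact Nat.le_add_right _ _

theorem LocM.mono {M : Alg} {p : Polynomial ℕ} {x : List Bool} {K K' : ℕ} (h : LocM M p x K)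
    (hK : K ≤ K') : LocM M p x K' := by
  intro R u hu
  obtain ⟨Q, h1, h2, h3⟩ := h R u hu
  exact ⟨Q, h1.trans hK, h2, h3⟩

theorem LocZ.mono {z : Oracle → Option (List Bool)} {p : Polynomial ℕ} {x : List Bool}
    {K K' l : ℕ} (h : LocZ z p x K l) (hK : K ≤ K') : LocZ z p x K' l := by
  intro R
  obtain ⟨Q, h1, h2⟩ := h R
  exact ⟨Q, h1.trans hK, h2⟩

theorem locZ_const (ζ : Option (List Bool)) (p : Polynomial ℕ) (x : List Bool) (K l : ℕ) :
    LocZ (fun _ => ζ) p x K l := fun R =>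
  ⟨∅, by simp, by simp, by simp, fun _ _ => rfl⟩

theorem kM_eval (M : Alg) (n : ℕ) : (kM M).eval n = M.p.eval (iL.eval n) + 5 * mm n := by
  unfold kM mm
  simp only [Polynomial.eval_add, Polynomial.eval_mul, Polynomial.eval_C, Polynomial.eval_X,
    Polynomial.eval_comp]
  ring

/-- the probabilistic tasks -/
structure Tasks : Prop where
  collA : TaskCollA
  collB : TaskCollB
  range : TaskRange
  locF : TaskLocF

/-- the collision event -/
def Coll (M : Alg) (x : List Bool) (z : Oracle → Option (List Bool)) : Set Oracle :=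
  {R | fo M (pM M) R x = z R ∧ ¬ (ConfA M R x (z R) ∧ ConfB M R x (z R))}

theorem prob_coll (T : Tasks) (M : Alg) (x : List Bool) (z : Oracle → Option (List Bool)) (l : ℕ)
    (hz : LocZ z (pM M) x ((kM M).eval x.length) l) :
    prob (Coll M x z) ≤ (6 * (kM M).eval x.length + 5) / 2 ^ mm x.length := by
  have h1 : LocM M (pM M) x ((kM M).eval x.length) :=
    (locM M x).mono (by rw [kM_eval]; omega)
  have hA := (T.collA M (pM M) x z _ l (pM_ge M _) h1 hz).2
  have hB := (T.collB M (pM M) x z _ l (pM_ge M _) h1 hz).2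
  have hsub : Coll M x z ⊆ {R | fo M (pM M) R x = z R ∧ ¬ ConfA M R x (z R)} ∪
      {R | fo M (pM M) R x = z R ∧ ¬ ConfB M R x (z R)} := by
    rintro R ⟨h2, h3⟩
    by_cases h4 : ConfA M R x (z R)
    · right
      exact ⟨h2, fun h5 => h3 ⟨h4, h5⟩⟩
    · left
      exact ⟨h2, h4⟩
  refine (prob_mono' hsub).trans ((prob_union_le' _ _).trans ((add_le_add hA hB).trans ?_))
  rw [← add_div]
  apply div_le_div_of_nonneg_right _ (by positivity)
  linarith

/-- the bad event for the inputs of length `n` -/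
def Bad (M : Alg) (n : ℕ) : Set Oracle :=
  ⋃ x ∈ sEq n, ({R | InRange R (vx (pM M) R x)} ∪
    ((⋃ ζ ∈ sLe n, Coll M x (fun _ => some ζ)) ∪
      ⋃ x' ∈ (sLe n).erase x, Coll M x (fun R => fo M (pM M) R x')))

theorem prob_bad (T : Tasks) (M : Alg) (n : ℕ) :
    prob (Bad M n) ≤ 2 ^ n * (1 / 2 ^ mm n + 2 * (2 ^ (n + 1) *
      ((6 * (kM M).eval n + 5) / 2 ^ mm n))) := by
  unfold Bad
  have hu : ∀ (s : Finset (List Bool)) (f : List Bool → Set Oracle),
      prob (⋃ x ∈ s, f x) ≤ ∑ x ∈ s, prob (f x) := fun s f => measureReal_biUnion_finset_le _ _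
  refine (hu _ _).trans ?_
  have hpos : (0 : ℝ) ≤ (6 * (kM M).eval n + 5) / 2 ^ mm n := by positivity
  have hx : ∀ x ∈ sEq n, prob ({R | InRange R (vx (pM M) R x)} ∪
      ((⋃ ζ ∈ sLe n, Coll M x (fun _ => some ζ)) ∪
      ⋃ x' ∈ (sLe n).erase x, Coll M x (fun R => fo M (pM M) R x'))) ≤
      1 / 2 ^ mm n + 2 * (2 ^ (n + 1) * ((6 * (kM M).eval n + 5) / 2 ^ mm n)) := by
    intro x hx
    rw [mem_sEq] at hx
    subst hx
    refine (prob_union_le' _ _).trans (add_le_add (T.range (pM M) x (pM_ge M _)) ?_)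
    refine (prob_union_le' _ _).trans ?_
    rw [two_mul]
    have hb : ∀ (s : Finset (List Bool)) (f : List Bool → Set Oracle),
        s.card ≤ 2 ^ (x.length + 1) →
        (∀ y ∈ s, prob (f y) ≤ (6 * (kM M).eval x.length + 5) / 2 ^ mm x.length) →
        prob (⋃ y ∈ s, f y) ≤
          2 ^ (x.length + 1) * ((6 * (kM M).eval x.length + 5) / 2 ^ mm x.length) := by
      intro s f hs hf
      refine (hu _ _).trans ((Finset.sum_le_card_nsmul _ _ _ hf).trans ?_)
      rw [nsmul_eq_mul]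
      apply mul_le_mul_of_nonneg_right _ hpos
      exact_mod_cast hs
    apply add_le_add
    · apply hb _ _ (card_sLe _)
      intro ζ _
      exact prob_coll T M x _ 0 (locZ_const _ _ _ _ _)
    · apply hb _ _ ((Finset.card_le_card (Finset.erase_subset _ _)).trans (card_sLe _))
      intro x' hx'
      rw [Finset.mem_erase, mem_sLe] at hx'
      refine prob_coll T M x _ _ ((T.locF M (pM M) x x' _ (pM_ge M _) (locM M x') hx'.2
        hx'.1).mono ?_)
      rw [kM_eval]
      have h1 : M.p.eval (iL.eval x'.length) ≤ M.p.eval (iL.eval x.length) :=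
        eval_mono _ (eval_mono _ hx'.2)
      have h2 : mm x'.length ≤ mm x.length := by unfold mm; omega
      omega
  refine (Finset.sum_le_card_nsmul _ _ _ hx).trans ?_
  rw [nsmul_eq_mul]
  apply mul_le_mul_of_nonneg_right _ (by positivity)
  exact_mod_cast card_sEq n

theorem poly_le (P : Polynomial ℕ) : ∃ C : ℝ, 0 ≤ C ∧ ∀ n : ℕ, ((P.eval n : ℕ) : ℝ) ≤ C * 2 ^ n := by
  induction P using Polynomial.induction_on' with
  | add p q hp hq =>
    obtain ⟨A, hA0, hA⟩ := hp
    obtain ⟨B, hB0, hB⟩ := hq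
    refine ⟨A + B, by positivity, fun n => ?_⟩
    rw [Polynomial.eval_add]
    push_cast
    have := hA n
    have := hB n
    linarith
  | monomial k a =>
    have ht : Filter.Tendsto (fun n : ℕ => ((n : ℝ) ^ k / (2 : ℝ) ^ n)) Filter.atTop (nhds 0) :=
      tendsto_pow_const_div_const_pow_of_one_lt k (by norm_num)
    obtain ⟨C, hC⟩ := ht.bddAbove_range
    have hC0 : 0 ≤ C := le_trans (by positivity) (hC ⟨0, rfl⟩)
    refine ⟨a * C, by positivity, fun n => ?_⟩
    rw [Polynomial.eval_monomial]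
    push_cast
    have h1 : (n : ℝ) ^ k / (2 : ℝ) ^ n ≤ C := hC ⟨n, rfl⟩
    rw [div_le_iff₀ (by positivity)] at h1
    have h2 : (0 : ℝ) ≤ a := Nat.cast_nonneg a
    nlinarith

theorem ae_bad (T : Tasks) (M : Alg) :
    ∀ᵐ R ∂randomOracle, ∀ᶠ n in Filter.atTop, R ∉ Bad M n := by
  obtain ⟨C, hC0, hC⟩ := poly_le (kM M)
  have hb : ∀ n, prob (Bad M n) ≤ (1 + 4 * (6 * C + 5)) * (1 / 2) ^ n := by
    intro n
    refine (prob_bad T M n).trans ?_
    have h1 : (6 * ((kM M).eval n : ℕ) + 5 : ℝ) ≤ (6 * C + 5) * 2 ^ n := by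
      have h2 := hC n
      have h3 : (1 : ℝ) ≤ 2 ^ n := one_le_pow₀ (by norm_num)
      nlinarith
    have h2 : (2 : ℝ) ^ mm n = 16 * (2 ^ n * 2 ^ n * (2 ^ n * 2 ^ n)) := by
      unfold mm
      rw [show 4 * (n + 1) = n + n + (n + n) + 4 by ring]
      simp only [pow_add]
      ring
    have h3 : (1 / 2 : ℝ) ^ n = 1 / 2 ^ n := by rw [one_div_pow]
    have hp : (0 : ℝ) < 2 ^ n := by positivity
    have h4 : (1 : ℝ) ≤ 2 ^ n := one_le_pow₀ (by norm_num)
    calc (2 : ℝ) ^ n * (1 / 2 ^ mm n + 2 * (2 ^ (n + 1) * ((6 * ((kM M).eval n : ℕ) + 5) / 2 ^ mm n)))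
        ≤ 2 ^ n * (1 / 2 ^ mm n + 2 * (2 ^ (n + 1) * (((6 * C + 5) * 2 ^ n) / 2 ^ mm n))) := by
          gcongr
      _ = (1 / (16 * (2 ^ n * 2 ^ n))) * (1 / 2 ^ n) + 4 * (6 * C + 5) / 16 * (1 / 2 ^ n) := by
          rw [h2, pow_succ]
          field_simp
          ring
      _ ≤ 1 * (1 / 2 ^ n) + 4 * (6 * C + 5) * (1 / 2 ^ n) := by
          have h5 : 1 / (16 * ((2 : ℝ) ^ n * 2 ^ n)) ≤ 1 := by
            rw [div_le_one (by positivity)]
            nlinarith
          have h6 : (0 : ℝ) ≤ 1 / 2 ^ n := by positivity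
          have h7 : 4 * (6 * C + 5) / 16 ≤ 4 * (6 * C + 5) := by
            rw [div_le_iff₀ (by norm_num)]
            nlinarith
          exact add_le_add (mul_le_mul_of_nonneg_right h5 h6) (mul_le_mul_of_nonneg_right h7 h6)
      _ = (1 + 4 * (6 * C + 5)) * (1 / 2) ^ n := by rw [h3]; ring
  apply ae_eventually_notMem
  have hsum : Summable (fun n : ℕ => (1 + 4 * (6 * C + 5)) * (1 / 2 : ℝ) ^ n) :=
    (summable_geometric_of_lt_one (by norm_num) (by norm_num)).mul_left _
  have hle : ∀ n, randomOracle (Bad M n) ≤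
      ENNReal.ofReal ((1 + 4 * (6 * C + 5)) * (1 / 2) ^ n) := by
    intro n
    rw [← ENNReal.ofReal_toReal (measure_ne_top randomOracle (Bad M n))]
    exact ENNReal.ofReal_le_ofReal (hb n)
  refine ne_top_of_le_ne_top ?_ (ENNReal.tsum_le_tsum hle)
  rw [← ENNReal.ofReal_tsum_of_nonneg (fun n => by positivity) hsum]
  exact ENNReal.ofReal_ne_top

end Pool.Agent.H910R3.ISO
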