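import Pool.Agent.H910R3.ISO.Stmts

set_option autoImplicit false

/-!
# One-one reductions relative to a random oracle: task CollA (helper195)
-/

namespace Pool.Agent.H910R3.ISO.CollA

open MeasureTheory Pool.Agent.NPC Pool.Agent.H628R3.RO Pool.Agent.H910R3.ISO

lemma map_range (k : ℕ) (f : ℕ → Bool) :
    (List.range k).map f = List.ofFn (fun i : Fin k => f i) := by
  apply List.ext_getElem
  · simp
  · intro i h1 h2
    simp

lemma exists_ofFn (m : ℕ) (l : List Bool) (h : l.length = m) :
    ∃ w : Fin m → Bool, List.ofFn w = l := by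
  subst h
  exact ⟨l.get, List.ofFn_get l⟩

lemma length_pairBits' (x w : List Bool) : (pairBits x w).length = 2 * x.length + 1 + w.length :=
  Pool.Agent.H628R3.RO.length_pairBits x w

/-- index set of the positions -/
abbrev Ix (m : ℕ) : Type := ((Fin m → Bool) × Fin (2 * m)) ⊕ (Fin m ⊕ Fin (2 * m))

/-- the positions -/
def ps (p : Polynomial ℕ) (x : List Bool) (m : ℕ) : Ix m → List Bool
  | .inl (w, j) => loc (List.ofFn w) j
  | .inr (.inl i) => hid p x i
  | .inr (.inr i) => hid p x (m + i)

/-- the bits -/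
def mk {m : ℕ} (g : (Fin m → Bool) → (Fin (2 * m) → Bool)) (w0 : Fin m → Bool)
    (u0 : Fin (2 * m) → Bool) : Ix m → Bool
  | .inl (w, j) => g w j
  | .inr (.inl i) => w0 i
  | .inr (.inr i) => u0 i

/-- the bits in three parts -/
def dec {m : ℕ} (b : Ix m → Bool) :
    ((Fin m → Bool) → (Fin (2 * m) → Bool)) × (Fin m → Bool) × (Fin (2 * m) → Bool) :=
  (fun w j => b (.inl (w, j)), fun i => b (.inr (.inl i)), fun i => b (.inr (.inr i)))

lemma mk_dec {m : ℕ} (b : Ix m → Bool) : mk (dec b).1 (dec b).2.1 (dec b).2.2 = b := by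
  funext i
  rcases i with ⟨w, j⟩ | i | i <;> rfl

lemma loc_length (w : List Bool) (j : ℕ) : (loc w j).length = w.length + j + 1 := by
  unfold loc
  simp
  omega

lemma loc_inj {w w' : List Bool} {j j' : ℕ} (hl : w.length = w'.length) (h : loc w j = loc w' j') :
    w = w' ∧ j = j' := by
  have h1 := loc_length w j
  have h2 := loc_length w' j'
  rw [h] at h1
  unfold loc at h
  have := List.append_inj_left h hl
  exact ⟨this, by omega⟩

lemma hid_length (p : Polynomial ℕ) (x : List Bool) (i : ℕ) :
    (hid p x i).length = 2 * x.length + 1 + (i + 1 + p.eval x.length) := by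
  unfold hid
  rw [length_pairBits']
  simp
  omega

lemma hid_inj {p : Polynomial ℕ} {x : List Bool} {i j : ℕ} (h : hid p x i = hid p x j) : i = j := by
  have h1 := hid_length p x i
  have h2 := hid_length p x j
  rw [h] at h1
  omega

lemma ps_inj (p : Polynomial ℕ) (x : List Bool) (m : ℕ) (h3 : 3 * m ≤ p.eval x.length) :
    Function.Injective (ps p x m) := by
  intro a b hab
  have hcross : ∀ (w : Fin m → Bool) (j : Fin (2 * m)) (i : ℕ), loc (List.ofFn w) j ≠ hid p x i := by
    intro w j i h
    have h1 := loc_length (List.ofFn w) j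
    have h2 := hid_length p x i
    rw [h, h2, List.length_ofFn] at h1
    have := j.2
    omega
  rcases a with ⟨w, j⟩ | i | i <;> rcases b with ⟨w', j'⟩ | i' | i'
  · have h := loc_inj (by simp) (show loc (List.ofFn w) j = loc (List.ofFn w') j' from hab)
    have h1 := List.ofFn_injective h.1
    have h2 := Fin.ext h.2
    rw [h1, h2]
  · exact absurd hab (hcross w j i')
  · exact absurd hab (hcross w j (m + i'))
  · exact absurd hab.symm (hcross w' j' i)
  · have h := hid_inj (show hid p x i = hid p x i' from hab)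
    rw [Fin.ext h]
  · have h := hid_inj (show hid p x i = hid p x (m + i') from hab)
    have := i.2
    omega
  · exact absurd hab.symm (hcross w' j' (m + i))
  · have h := hid_inj (show hid p x (m + i) = hid p x i' from hab)
    have := i'.2
    omega
  · have h := hid_inj (show hid p x (m + i) = hid p x (m + i') from hab)
    rw [Fin.ext (show (i : ℕ) = i' by omega)]

lemma ovr_pos {ι : Type} {pos : ι → List Bool} (hp : Function.Injective pos) (b : ι → Bool)
    (r : Oracle) (i : ι) : ovr pos b r (pos i) = b i := by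
  unfold ovr
  have h : ∃ j, pos j = pos i := ⟨i, rfl⟩
  rw [dif_pos h, hp h.choose_spec]

lemma ovr_not {ι : Type} {pos : ι → List Bool} (b : ι → Bool)
    (r : Oracle) (q : List Bool) (h : ∀ i, pos i ≠ q) : ovr pos b r q = r q := by
  unfold ovr
  rw [dif_neg]
  push Not
  exact h

lemma ovr_agree {ι : Type} {pos : ι → List Bool} (hp : Function.Injective pos) (b b' : ι → Bool)
    (r : Oracle) (q : List Bool) (h : ∀ i, pos i = q → b i = b' i) :
    ovr pos b r q = ovr pos b' r q := by
  by_cases hq : ∃ i, pos i = q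
  · obtain ⟨i, rfl⟩ := hq
    rw [ovr_pos hp, ovr_pos hp, h i rfl]
  · push Not at hq
    rw [ovr_not b r q hq, ovr_not b' r q hq]

section
variable {M : Alg} {p : Polynomial ℕ} {x : List Bool} {z : Oracle → Option (List Bool)} {K l : ℕ}

/-- changes at the hidden positions do not matter -/
lemma noHid_M (hM : LocM M p x K) (R R' : Oracle) (h : ∀ q, (∀ i, q ≠ hid p x i) → R' q = R q)
    (u : List Bool) (hu : u.length = 4 * mm x.length) :
    M.out R' (pairBits x u) = M.out R (pairBits x u) := by
  obtain ⟨Q, -, hQ2, hQ3⟩ := hM R u hu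
  refine hQ3 R' fun q hq => h q fun i hi => ?_
  have h1 := hQ2 q hq
  rw [hi, hid_length] at h1
  omega

lemma noHid_z (hz : LocZ z p x K l) (R R' : Oracle) (h : ∀ q, (∀ i, q ≠ hid p x i) → R' q = R q) :
    z R' = z R := by
  obtain ⟨Q, -, -, hQ3, hQ4⟩ := hz R
  exact hQ4 R' fun q hq => h q (hQ3 q hq)

lemma hb_eq (R : Oracle) (a k : ℕ) :
    hb p R x a k = List.ofFn (fun i : Fin k => R (hid p x (a + i))) := by
  unfold hb
  exact map_range k _

lemma G_eq {m : ℕ} (R : Oracle) (w : Fin m → Bool) :
    G R (List.ofFn w) = List.ofFn (fun j : Fin (2 * m) => R (loc (List.ofFn w) j)) := by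
  unfold G
  rw [List.length_ofFn]
  exact map_range (2 * m) _

lemma G_length (R : Oracle) (w : List Bool) : (G R w).length = 2 * w.length := by
  unfold G
  simp

/-- the bad set is determined by the short strings -/
lemma meas (h3 : 3 * mm x.length ≤ p.eval x.length) (hM : LocM M p x K) (hz : LocZ z p x K l) :
    MeasurableSet {R | fo M p R x = z R ∧ ¬ ConfA M R x (z R)} := by
  set L : ℕ := l + (2 * x.length + 1 + (3 * mm x.length + 1 + p.eval x.length)) with hL
  refine measurableSet_of_loc (K := {q : List Bool | q.length ≤ L}) (List.finite_length_le Bool L) ?_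
  intro R R' hRR
  simp only [Set.mem_ofPred_eq] at hRR ⊢
  have hMo : ∀ u : List Bool, u.length = 4 * mm x.length →
      M.out R' (pairBits x u) = M.out R (pairBits x u) := by
    intro u hu
    obtain ⟨Q, -, hQ2, hQ3⟩ := hM R u hu
    refine hQ3 R' fun q hq => (hRR q ?_).symm
    have := hQ2 q hq
    omega
  have hzz : z R' = z R := by
    obtain ⟨Q, -, hQ2, -, hQ4⟩ := hz R
    refine hQ4 R' fun q hq => (hRR q ?_).symm
    have := hQ2 q hq
    omega
  have hG : ∀ w : List Bool, w.length = mm x.length → G R' w = G R w := by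
    intro w hw
    unfold G
    refine List.map_congr_left fun j hj => ?_
    rw [List.mem_range] at hj
    refine (hRR _ ?_).symm
    rw [loc_length]
    omega
  have hw : wx p R' x = wx p R x := by
    unfold wx hb
    refine List.map_congr_left fun j hj => ?_
    rw [List.mem_range] at hj
    refine (hRR _ ?_).symm
    rw [hid_length]
    omega
  have hv : vx p R' x = vx p R x := by
    unfold vx hb
    refine List.map_congr_left fun j hj => ?_
    rw [List.mem_range] at hj
    refine (hRR _ ?_).symm
    rw [hid_length]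
    omega
  have hwl : (wx p R x).length = mm x.length := by unfold wx hb; simp
  have hvl : (vx p R x).length = 2 * mm x.length := by unfold vx hb; simp
  have hfo : fo M p R' x = fo M p R x := by
    unfold fo inst
    rw [hw, hv, hG _ hwl]
    apply hMo
    rw [List.length_append, G_length, hwl, hvl]
    omega
  have hIn : ∀ v : List Bool, v.length = 2 * mm x.length → (InRange R' v ↔ InRange R v) := by
    intro v hv
    unfold InRange
    refine exists_congr fun w => ?_
    by_cases hw : w.length = mm x.length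
    · rw [hG w hw]
    · constructor
      · intro h
        have := congrArg List.length h
        rw [G_length, hv] at this
        omega
      · intro h
        have := congrArg List.length h
        rw [G_length, hv] at this
        omega
  have hC : ConfA M R' x (z R') ↔ ConfA M R x (z R) := by
    unfold ConfA
    rw [hzz]
    refine exists_congr fun v1 => exists_congr fun v2 => ?_
    refine and_congr_right fun h1 => and_congr_right fun h2 => ?_
    rw [hIn v1 h1, hIn v2 h2, hMo (v1 ++ v2) (by rw [List.length_append, h1, h2]; omega)]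
  rw [hfo, hzz] at *
  rw [hC]

end

open Classical in
/-- planting without decidability instances -/
lemma plant' (hPl : TaskPlantA) (W V U : Type) [Fintype W] [DecidableEq W] [Fintype V]
    [DecidableEq V] [Fintype U] (E : (W → V) → V → U → Prop) (K κ : ℕ)
    (hE : ∀ g v u (S : Finset W), (∀ w ∈ S, ∃ v1, ¬ (E (Function.update g w v1) v u ↔ E g v u)) →
      S.card ≤ K) (T : Finset ((W → V) × W × U))
    (hT : ∀ t ∈ T, E t.1 (t.1 t.2.1) t.2.2 ∧ ∀ S : Finset (V × U), (∀ q ∈ S, E t.1 q.1 q.2) →
      S.card ≤ κ) :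
    Fintype.card V * T.card ≤
      Fintype.card (W → V) * (K * Fintype.card U * Fintype.card V + Fintype.card W * κ) := by
  refine le_trans (Nat.mul_le_mul_left _ (Finset.card_le_card ?_)) (hPl W V U E K κ ?_)
  · intro t ht
    rw [Finset.mem_filter]
    exact ⟨Finset.mem_univ _, (hT t ht).1, (hT t ht).2 _ fun q hq => (Finset.mem_filter.1 hq).2⟩
  · intro g v u
    exact hE g v u _ fun w hw => (Finset.mem_filter.1 hw).2

open Classical in
/-- averaging without decidability instances -/
lemma avg' (hAv : TaskAvg) (ι : Type) [Fintype ι] (pos : ι → List Bool)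
    (hinj : Function.Injective pos) (S : Set Oracle) (hS : MeasurableSet S) (B : ℝ)
    (h : ∀ (r : Oracle) (F : Set (ι → Bool)) (hF : F.Finite), (∀ b ∈ F, ovr pos b r ∈ S) →
      (hF.toFinset.card : ℝ) ≤ B * 2 ^ Fintype.card ι) : prob S ≤ B := by
  refine hAv ι pos hinj S hS B fun r => ?_
  have h1 := h r {b | ovr pos b r ∈ S} (Set.toFinite _) (fun b hb => hb)
  refine le_trans (le_of_eq ?_) h1
  congr 2
  ext b
  simp

theorem taskCollA : TaskPlantA → TaskAvg → TaskCollA := by
  intro hPl hAv M p x z K l h3 hM hz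
  refine ⟨meas h3 hM hz, ?_⟩
  obtain ⟨m, hm⟩ : ∃ m, m = mm x.length := ⟨_, rfl⟩
  rw [← hm] at h3 ⊢
  have hinj := ps_inj p x m h3
  refine avg' hAv (Ix m) (ps p x m) hinj _ (meas (by rw [← hm]; exact h3) hM hz) _
    fun r F hF hFS => ?_
  -- the oracle
  set Rf : ((Fin m → Bool) → (Fin (2 * m) → Bool)) → (Fin m → Bool) → (Fin (2 * m) → Bool) →
    Oracle := fun g w0 u0 => ovr (ps p x m) (mk g w0 u0) r with hRf
  set o1 : Fin m → Bool := fun _ => false with ho1
  set o2 : Fin (2 * m) → Bool := fun _ => false with ho2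
  set E : ((Fin m → Bool) → (Fin (2 * m) → Bool)) → (Fin (2 * m) → Bool) → (Fin (2 * m) → Bool) →
    Prop := fun g v u => M.out (Rf g o1 o2) (pairBits x (List.ofFn v ++ List.ofFn u)) =
      z (Rf g o1 o2) with hE
  have hlen : ∀ v u : Fin (2 * m) → Bool, (List.ofFn v ++ List.ofFn u).length = 4 * mm x.length := by
    intro v u
    rw [List.length_append, List.length_ofFn, List.length_ofFn, ← hm]
    omega
  have hhid : ∀ g w0 u0 w0' u0' q, (∀ i, q ≠ hid p x i) → Rf g w0 u0 q = Rf g w0' u0' q := by
    intro g w0 u0 w0' u0' q hq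
    refine ovr_agree hinj _ _ r q fun i hi => ?_
    rcases i with ⟨w, j⟩ | i | i
    · rfl
    · exact absurd hi.symm (hq i)
    · exact absurd hi.symm (hq (m + i))
  have hRloc : ∀ g w0 u0 w (j : Fin (2 * m)), Rf g w0 u0 (loc (List.ofFn w) j) = g w j := by
    intro g w0 u0 w j
    exact ovr_pos hinj (mk g w0 u0) r (.inl (w, j))
  have hRG : ∀ g w0 u0 w, G (Rf g w0 u0) (List.ofFn w) = List.ofFn (g w) := by
    intro g w0 u0 w
    rw [G_eq]
    congr 1
    funext j
    exact hRloc g w0 u0 w j
  have hRw : ∀ g w0 u0, wx p (Rf g w0 u0) x = List.ofFn w0 := by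
    intro g w0 u0
    unfold wx
    rw [← hm, hb_eq]
    congr 1
    funext i
    have := ovr_pos hinj (mk g w0 u0) r (.inr (.inl i))
    simp only [zero_add]
    exact this
  have hRv : ∀ g w0 u0, vx p (Rf g w0 u0) x = List.ofFn u0 := by
    intro g w0 u0
    unfold vx
    rw [← hm, hb_eq]
    congr 1
    funext i
    exact ovr_pos hinj (mk g w0 u0) r (.inr (.inr i))
  -- the bad bits
  set κ : ℕ := 2 * (2 ^ m * 2 ^ (2 * m)) with hκ
  have hbad : ∀ g w0 u0, fo M p (Rf g w0 u0) x = z (Rf g w0 u0) →
      ¬ ConfA M (Rf g w0 u0) x (z (Rf g w0 u0)) →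
      E g (g w0) u0 ∧ ∀ S : Finset ((Fin (2 * m) → Bool) × (Fin (2 * m) → Bool)),
        (∀ q ∈ S, E g q.1 q.2) → S.card ≤ κ := by
    intro g w0 u0 hfo hC
    have hz0 : z (Rf g o1 o2) = z (Rf g w0 u0) :=
      noHid_z hz _ _ fun q hq => hhid g o1 o2 w0 u0 q hq
    have hM0 : ∀ v u : Fin (2 * m) → Bool,
        M.out (Rf g o1 o2) (pairBits x (List.ofFn v ++ List.ofFn u)) =
        M.out (Rf g w0 u0) (pairBits x (List.ofFn v ++ List.ofFn u)) := fun v u =>
      noHid_M hM _ _ (fun q hq => hhid g o1 o2 w0 u0 q hq) _ (hlen v u)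
    constructor
    · simp only [hE]
      rw [hM0, hz0, ← hfo]
      unfold fo inst
      rw [hRw, hRv, hRG]
    · intro S hS
      have hsub : S ⊆ ((Finset.univ.image g) ×ˢ Finset.univ) ∪
            (Finset.univ ×ˢ (Finset.univ.image g)) := by
        intro q hq
        have h1 : M.out (Rf g w0 u0) (pairBits x (List.ofFn q.1 ++ List.ofFn q.2)) =
            z (Rf g w0 u0) := by
          rw [← hM0, ← hz0]; exact hS q hq
        have hrange : ∀ v : Fin (2 * m) → Bool, InRange (Rf g w0 u0) (List.ofFn v) →
            v ∈ Finset.univ.image g := by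
          rintro v ⟨w', hw'⟩
          have h2 := congrArg List.length hw'
          rw [G_length, List.length_ofFn] at h2
          obtain ⟨w, rfl⟩ := exists_ofFn m w' (by omega)
          rw [hRG] at hw'
          rw [Finset.mem_image]
          exact ⟨w, Finset.mem_univ _, List.ofFn_injective hw'⟩
        by_contra hcon
        rw [Finset.mem_union, Finset.mem_product, Finset.mem_product] at hcon
        push Not at hcon
        refine hC ⟨List.ofFn q.1, List.ofFn q.2, by rw [List.length_ofFn, hm],
          by rw [List.length_ofFn, hm], fun h => ?_, fun h => ?_, h1⟩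
        · exact hcon.1 (hrange _ h) (Finset.mem_univ _)
        · exact hcon.2 (Finset.mem_univ _) (hrange _ h)
      refine (Finset.card_le_card hsub).trans ((Finset.card_union_le _ _).trans ?_)
      rw [Finset.card_product, Finset.card_product]
      have h1 : (Finset.univ.image g).card ≤ 2 ^ m := by
        refine Finset.card_image_le.trans ?_
        simp
      have h2 : (Finset.univ : Finset (Fin (2 * m) → Bool)).card = 2 ^ (2 * m) := by simp
      rw [h2, hκ]
      nlinarith [Nat.mul_le_mul_right (2 ^ (2 * m)) h1]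
  -- the counting
  have hEs : ∀ g v u (S : Finset (Fin m → Bool)),
      (∀ w ∈ S, ∃ v1, ¬ (E (Function.update g w v1) v u ↔ E g v u)) → S.card ≤ 2 * K := by
    intro g v u S hS
    obtain ⟨Q1, hQ1, -, hQ1b⟩ := hM (Rf g o1 o2) (List.ofFn v ++ List.ofFn u) (hlen v u)
    obtain ⟨Q2, hQ2, -, -, hQ2b⟩ := hz (Rf g o1 o2)
    set f : List Bool → (Fin m → Bool) := fun q i => q.getD i false with hf
    have hsub : S ⊆ (Q1 ∪ Q2).image f := by
      intro w hw
      obtain ⟨v1, hv1⟩ := hS w hw
      by_contra hcon
      apply hv1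
      have hag : ∀ q ∈ Q1 ∪ Q2, Rf (Function.update g w v1) o1 o2 q = Rf g o1 o2 q := by
        intro q hq
        refine ovr_agree hinj _ _ r q fun i hi => ?_
        rcases i with ⟨w', j⟩ | i | i
        · have hne : w' ≠ w := by
            rintro rfl
            apply hcon
            rw [Finset.mem_image]
            refine ⟨q, hq, ?_⟩
            rw [← hi]
            funext i
            simp only [hf, ps, loc]
            rw [List.getD_append _ _ _ _ (by simp)]
            rw [List.getD_eq_getElem _ _ (by simp)]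
            simp
          change (Function.update g w v1) w' j = g w' j
          rw [Function.update_of_ne hne]
        · rfl
        · rfl
      simp only [hE]
      rw [hQ1b _ (fun q hq => hag q (Finset.mem_union_left _ hq)),
        hQ2b _ (fun q hq => hag q (Finset.mem_union_right _ hq))]
    have h1 := (Finset.card_le_card hsub).trans Finset.card_image_le
    have h2 := Finset.card_union_le Q1 Q2
    omega
  have hdinj : Function.Injective (dec (m := m)) := by
    intro b b' hbb
    rw [← mk_dec b, ← mk_dec b', hbb]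
  set T : Finset (((Fin m → Bool) → (Fin (2 * m) → Bool)) × (Fin m → Bool) ×
    (Fin (2 * m) → Bool)) := hF.toFinset.map ⟨dec, hdinj⟩ with hT
  have hP := plant' hPl (Fin m → Bool) (Fin (2 * m) → Bool) (Fin (2 * m) → Bool) E (2 * K) κ hEs T
    (by
      intro t ht
      rw [hT, Finset.mem_map] at ht
      obtain ⟨b, hb, rfl⟩ := ht
      have hb2 := hFS b (hF.mem_toFinset.1 hb)
      rw [Set.mem_ofPred_eq] at hb2
      have h1 := hbad (dec b).1 (dec b).2.1 (dec b).2.2
      simp only [hRf, mk_dec] at h1
      exact h1 hb2.1 hb2.2)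
  have hTc : T.card = hF.toFinset.card := by rw [hT, Finset.card_map]
  rw [hTc] at hP
  obtain ⟨A, hA⟩ : ∃ A : ℕ, A = Fintype.card ((Fin m → Bool) → (Fin (2 * m) → Bool)) := ⟨_, rfl⟩
  have hV : Fintype.card (Fin (2 * m) → Bool) = 2 ^ (2 * m) := by simp
  have hW : Fintype.card (Fin m → Bool) = 2 ^ m := by simp
  have h1 : Fintype.card (Ix m) = 2 * m * 2 ^ m + (m + 2 * m) := by
    simp [mul_comm]
  have h2 : A = 2 ^ (2 * m * 2 ^ m) := by
    rw [hA, Fintype.card_fun, hV, hW, ← pow_mul]
  rw [← hA, hV, hW] at hP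
  rw [h1]
  clear_value T
  generalize hF.toFinset.card = c at hP ⊢
  have hT2 : c ≤ A * (2 ^ (2 * m) * (2 * K + 2)) := by
    have h1 : 2 ^ (2 * m) * c ≤ 2 ^ (2 * m) * (A * (2 ^ (2 * m) * (2 * K + 2))) := by
      refine hP.trans (le_of_eq ?_)
      rw [hκ, two_mul m, pow_add]
      ring
    exact Nat.le_of_mul_le_mul_left h1 (by positivity)
  have h6 : (c : ℝ) ≤ (A : ℝ) * (2 ^ (2 * m) * (2 * K + 2)) := by exact_mod_cast hT2
  refine h6.trans (le_of_eq ?_)
  rw [h2, pow_add, pow_add]
  push_cast
  field_simp

end Pool.Agent.H910R3.ISO.CollA
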