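import Pool.Agent.H910R3.ISO.Stmts

set_option autoImplicit false

namespace Pool.Agent.H910R3.ISO.CollB2

open MeasureTheory Pool.Agent.NPC Pool.Agent.H628R3.RO

lemma length_loc (w : List Bool) (j : ℕ) : (loc w j).length = w.length + j + 1 := by
  simp [loc]; omega

lemma length_hid (p : Polynomial ℕ) (x : List Bool) (i : ℕ) :
    (hid p x i).length = 2 * x.length + 1 + (i + 1 + p.eval x.length) := by
  rw [hid, length_pairBits]; simp; omega

lemma loc_inj {w w' : List Bool} {j j' : ℕ} (hw : w.length = w'.length)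
    (h : loc w j = loc w' j') : w = w' ∧ j = j' := by
  have h1 := congrArg List.length h
  rw [length_loc, length_loc] at h1
  exact ⟨(List.append_inj h hw).1, by omega⟩

lemma hid_inj {p : Polynomial ℕ} {x : List Bool} {i i' : ℕ} (h : hid p x i = hid p x i') :
    i = i' := by
  have h1 := congrArg List.length h
  rw [length_hid, length_hid] at h1
  omega

lemma G_congr {R R' : Oracle} {w : List Bool}
    (h : ∀ j < 2 * w.length, R (loc w j) = R' (loc w j)) : G R w = G R' w := by
  unfold G
  apply List.map_congr_left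
  intro j hj
  exact h j (List.mem_range.1 hj)

lemma length_G (R : Oracle) (w : List Bool) : (G R w).length = 2 * w.length := by simp [G]

lemma hb_congr {p : Polynomial ℕ} {R R' : Oracle} {x : List Bool} {a k : ℕ}
    (h : ∀ j < k, R (hid p x (a + j)) = R' (hid p x (a + j))) : hb p R x a k = hb p R' x a k := by
  unfold hb
  apply List.map_congr_left
  intro j hj
  exact h j (List.mem_range.1 hj)

lemma length_hb (p : Polynomial ℕ) (R : Oracle) (x : List Bool) (a k : ℕ) :
    (hb p R x a k).length = k := by simp [hb]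

lemma G_of {m : ℕ} (R : Oracle) (w : Fin m → Bool) (v : Fin (2 * m) → Bool)
    (h : ∀ j : Fin (2 * m), R (loc (List.ofFn w) j) = v j) : G R (List.ofFn w) = List.ofFn v := by
  apply List.ext_getElem
  · simp [G]
  · intro n h1 h2
    simp only [G, List.getElem_map, List.getElem_range, List.getElem_ofFn]
    have h3 : n < 2 * m := by simpa using h2
    exact h ⟨n, h3⟩

lemma hb_of {p : Polynomial ℕ} {x : List Bool} {k : ℕ} (R : Oracle) (a : ℕ) (v : Fin k → Bool)
    (h : ∀ j : Fin k, R (hid p x (a + j)) = v j) : hb p R x a k = List.ofFn v := by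
  apply List.ext_getElem
  · simp [hb]
  · intro n h1 h2
    simp only [hb, List.getElem_map, List.getElem_range, List.getElem_ofFn]
    have h3 : n < k := by simpa using h2
    exact h ⟨n, h3⟩

section ovrs

variable {ι : Type} {pos : ι → List Bool}

lemma ovr_pos (hinj : Function.Injective pos) (b : ι → Bool) (r : Oracle) (i : ι) :
    ovr pos b r (pos i) = b i := by
  have h : ∃ i', pos i' = pos i := ⟨i, rfl⟩
  unfold ovr
  rw [dif_pos h]
  exact congrArg b (hinj h.choose_spec)

lemma ovr_not (b : ι → Bool) (r : Oracle) (q : List Bool) (h : ∀ i, pos i ≠ q) :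
    ovr pos b r q = r q := by
  unfold ovr
  rw [dif_neg]
  rintro ⟨i, hi⟩
  exact h i hi

end ovrs

/-- positions of the blocks -/
def posW (m : ℕ) (q : (Fin m → Bool) × Fin (2 * m)) : List Bool := loc (List.ofFn q.1) q.2

lemma posW_inj (m : ℕ) : Function.Injective (posW m) := by
  rintro ⟨w, j⟩ ⟨w', j'⟩ h
  obtain ⟨h1, h2⟩ := loc_inj (by simp) h
  exact Prod.ext (List.ofFn_injective h1) (Fin.ext h2)

lemma length_posW (m : ℕ) (q : (Fin m → Bool) × Fin (2 * m)) : (posW m q).length ≤ 3 * m := by
  have := q.2.2
  rw [posW, length_loc, List.length_ofFn]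
  omega

/-- all positions -/
def posA (p : Polynomial ℕ) (x : List Bool) (m : ℕ) :
    ((Fin m → Bool) × Fin (2 * m)) ⊕ (Fin m ⊕ Fin (2 * m)) → List Bool :=
  Sum.elim (posW m) (Sum.elim (fun i => hid p x (0 + i)) (fun i => hid p x (m + i)))

lemma posA_inj (p : Polynomial ℕ) (x : List Bool) (m : ℕ) (hm : 3 * m ≤ p.eval x.length) :
    Function.Injective (posA p x m) := by
  have hne : ∀ q i, posW m q ≠ hid p x i := by
    intro q i h
    have h1 := congrArg List.length h
    have h2 := length_posW m q
    rw [length_hid] at h1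
    omega
  rintro (q | i | i) (q' | i' | i') h
  · exact congrArg _ (posW_inj m h)
  · exact absurd h (hne _ _)
  · exact absurd h (hne _ _)
  · exact absurd h.symm (hne _ _)
  · have := hid_inj h
    have : i = i' := Fin.ext (by omega)
    rw [this]
  · have := hid_inj h
    have h2 := i.2
    omega
  · exact absurd h.symm (hne _ _)
  · have := hid_inj h
    have h2 := i'.2
    omega
  · have := hid_inj h
    have : i = i' := Fin.ext (by omega)
    rw [this]

section core

variable {M : Alg} {p : Polynomial ℕ} {x : List Bool} {z : Oracle → Option (List Bool)} {K l : ℕ}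

lemma out_congr (hM : LocM M p x K) {R R' : Oracle}
    (h : ∀ q : List Bool, q.length ≤ p.eval x.length → R' q = R q) (u : List Bool)
    (hu : u.length = 4 * mm x.length) : M.out R' (pairBits x u) = M.out R (pairBits x u) := by
  obtain ⟨Q, -, h1, h2⟩ := hM R u hu
  exact h2 R' fun q hq => h q (h1 q hq)

lemma z_congr (hz : LocZ z p x K l) {R R' : Oracle}
    (h : ∀ q : List Bool, (∀ i, q ≠ hid p x i) → R' q = R q) : z R' = z R := by
  obtain ⟨Q, -, -, h1, h2⟩ := hz R
  exact h2 R' fun q hq => h q (h1 q hq)

lemma fo_congr (hp : 3 * mm x.length ≤ p.eval x.length) (hM : LocM M p x K) {R R' : Oracle}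
    (h : ∀ q : List Bool, q.length ≤ 2 * x.length + 1 + (3 * mm x.length + 1 + p.eval x.length) →
      R' q = R q) : fo M p R' x = fo M p R x := by
  have e1 : wx p R' x = wx p R x := hb_congr fun j hj => h _ (by rw [length_hid]; omega)
  have e2 : vx p R' x = vx p R x := hb_congr fun j hj => h _ (by rw [length_hid]; omega)
  have l1 : (wx p R x).length = mm x.length := length_hb _ _ _ _ _
  have l2 : (vx p R x).length = 2 * mm x.length := length_hb _ _ _ _ _
  have e3 : G R' (wx p R x) = G R (wx p R x) := G_congr fun j hj => h _ (by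
    rw [length_loc]; rw [l1] at hj ⊢; omega)
  unfold fo inst
  rw [e1, e2, e3]
  refine out_congr hM (fun q hq => h q (by omega)) _ ?_
  rw [List.length_append, length_G, l1, l2]
  omega

lemma confB_congr (_hp : 3 * mm x.length ≤ p.eval x.length) (hM : LocM M p x K) {R R' : Oracle}
    (h : ∀ q : List Bool, q.length ≤ p.eval x.length → R' q = R q) (y : Option (List Bool)) :
    ConfB M R' x y ↔ ConfB M R x y := by
  have hG : ∀ w : List Bool, w.length = mm x.length → G R' w = G R w := fun w hw =>
    G_congr fun j hj => h _ (by rw [length_loc]; omega)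
  refine exists_congr fun w1 => exists_congr fun w2 => and_congr_right fun h1 =>
    and_congr_right fun h2 => ?_
  rw [hG w1 h1, hG w2 h2, out_congr hM h _ (by
    rw [List.length_append, length_G, length_G, h1, h2]; omega)]

lemma meas (hp : 3 * mm x.length ≤ p.eval x.length) (hM : LocM M p x K) (hz : LocZ z p x K l) :
    MeasurableSet {R | fo M p R x = z R ∧ ¬ ConfB M R x (z R)} := by
  refine measurableSet_of_loc (List.finite_length_le Bool
    (l + (2 * x.length + 1 + (3 * mm x.length + 1 + p.eval x.length)))) ?_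
  intro A A' h
  have h' : ∀ q : List Bool, q.length ≤ l + (2 * x.length + 1 +
    (3 * mm x.length + 1 + p.eval x.length)) → A' q = A q := fun q hq => (h q hq).symm
  have e1 : z A' = z A := by
    obtain ⟨Q, -, h1, -, h2⟩ := hz A
    exact h2 A' fun q hq => h' q (by have := h1 q hq; omega)
  have e2 : fo M p A' x = fo M p A x := fo_congr hp hM fun q hq => h' q (by omega)
  have e3 := confB_congr hp hM (R := A) (R' := A') (fun q hq => h' q (by omega)) (z A)
  simp only [Set.mem_ofPred_eq]
  rw [e1, e2, e3]

open Classical in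
lemma count (hB : TaskPlantB) (hp : 3 * mm x.length ≤ p.eval x.length) (hM : LocM M p x K)
    (hz : LocZ z p x K l) (r : Oracle) :
    ((Finset.univ.filter fun b => ovr (posA p x (mm x.length)) b r ∈
      {R | fo M p R x = z R ∧ ¬ ConfB M R x (z R)}).card : ℝ) ≤
    (4 * K + 3) / 2 ^ mm x.length * 2 ^ Fintype.card
      (((Fin (mm x.length) → Bool) × Fin (2 * mm x.length)) ⊕ (Fin (mm x.length) ⊕ Fin (2 * mm x.length))) := by
  set m := mm x.length with hm
  set Rg : ((Fin m → Bool) → (Fin (2 * m) → Bool)) → Oracle := fun g =>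
    ovr (posW m) (fun q => g q.1 q.2) r with hRg
  obtain ⟨E, hE⟩ : ∃ E : ((Fin m → Bool) → (Fin (2 * m) → Bool)) → (Fin (2 * m) → Bool) →
      (Fin m → Bool) → Prop, ∀ g v u, E g v u ↔
        M.out (Rg g) (pairBits x (List.ofFn (g u) ++ List.ofFn v)) = z (Rg g) :=
    ⟨fun g v u => M.out (Rg g) (pairBits x (List.ofFn (g u) ++ List.ofFn v)) = z (Rg g),
      fun _ _ _ => Iff.rfl⟩
  have key : ∀ g v u, (Finset.univ.filter fun w : (Fin m → Bool) =>
      ∃ v1, ¬ (E (Function.update g w v1) v u ↔ E g v u)).card ≤ 2 * K + 1 := by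
    intro g v u
    obtain ⟨Q1, c1, -, l1⟩ := hM (Rg g) (List.ofFn (g u) ++ List.ofFn v) (by
      rw [List.length_append, List.length_ofFn, List.length_ofFn]; omega)
    obtain ⟨Q2, c2, -, -, l2⟩ := hz (Rg g)
    let f : List Bool → (Fin m → Bool) := fun q i => (q[(i : ℕ)]?).getD false
    have hf : ∀ q : (Fin m → Bool) × Fin (2 * m), f (posW m q) = q.1 := by
      intro q
      funext i
      have h1 : (posW m q)[(i : ℕ)]? = some (q.1 i) := by
        unfold posW loc
        rw [List.getElem?_append_left (by simp)]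
        simp
      show ((posW m q)[(i : ℕ)]?).getD false = q.1 i
      rw [h1]
      rfl
    have hsub : (Finset.univ.filter fun w : (Fin m → Bool) =>
        ∃ v1, ¬ (E (Function.update g w v1) v u ↔ E g v u)) ⊆ insert u ((Q1 ∪ Q2).image f) := by
      intro w hw
      rw [Finset.mem_filter] at hw
      obtain ⟨-, v1, hv1⟩ := hw
      by_contra hcon
      rw [Finset.mem_insert, not_or] at hcon
      obtain ⟨hne, hcon⟩ := hcon
      apply hv1
      have hQ : ∀ q ∈ Q1 ∪ Q2, Rg (Function.update g w v1) q = Rg g q := by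
        intro q hq
        simp only [hRg]
        by_cases hex : ∃ i, posW m i = q
        · obtain ⟨i, rfl⟩ := hex
          rw [ovr_pos (posW_inj m), ovr_pos (posW_inj m)]
          have : i.1 ≠ w := by
            intro h
            apply hcon
            rw [← h, ← hf i]
            exact Finset.mem_image_of_mem f hq
          rw [Function.update_of_ne this]
        · rw [ovr_not _ _ _ (fun i hi => hex ⟨i, hi⟩), ovr_not _ _ _ (fun i hi => hex ⟨i, hi⟩)]
      have e1 := l1 (Rg (Function.update g w v1)) fun q hq => hQ q (Finset.mem_union_left _ hq)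
      have e2 := l2 (Rg (Function.update g w v1)) fun q hq => hQ q (Finset.mem_union_right _ hq)
      have e3 : Function.update g w v1 u = g u := Function.update_of_ne (fun h => hne h.symm) _ _
      rw [hE, hE, e3, e1, e2]
    refine (Finset.card_le_card hsub).trans ?_
    refine (Finset.card_insert_le _ _).trans ?_
    have h3 : ((Q1 ∪ Q2).image f).card ≤ 2 * K :=
      Finset.card_image_le.trans ((Finset.card_union_le _ _).trans (by omega))
    omega
  have hB' := hB (Fin m → Bool) (Fin (2 * m) → Bool) (Fin m → Bool) E (2 * K + 1) key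
  have hinj := posA_inj p x m hp
  -- the comparison of the two counts
  have hle : (Finset.univ.filter fun b => ovr (posA p x m) b r ∈
      {R | fo M p R x = z R ∧ ¬ ConfB M R x (z R)}).card ≤
      (Finset.univ.filter fun t : ((Fin m → Bool) → (Fin (2 * m) → Bool)) × (Fin (2 * m) → Bool) × (Fin m → Bool) =>
        E t.1 t.2.1 t.2.2 ∧ ∀ w u, ¬ E t.1 (t.1 w) u).card := by
    refine Finset.card_le_card_of_injOn (fun b => (fun w j => b (Sum.inl (w, j)),
      fun j => b (Sum.inr (Sum.inr j)), fun i => b (Sum.inr (Sum.inl i)))) ?_ ?_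
    · intro b hb
      simp only [Finset.coe_filter, Finset.mem_univ, true_and, Set.mem_ofPred_eq] at hb ⊢
      obtain ⟨hb1, hb2⟩ := hb
      set g : (Fin m → Bool) → (Fin (2 * m) → Bool) := fun w j => b (Sum.inl (w, j)) with hg
      set R := ovr (posA p x m) b r with hR
      have a1 : ∀ q : (Fin m → Bool) × Fin (2 * m), R (posW m q) = g q.1 q.2 := fun q =>
        ovr_pos hinj b r (Sum.inl q)
      have a2 : ∀ q : (Fin m → Bool) × Fin (2 * m), Rg g (posW m q) = g q.1 q.2 := fun q =>
        ovr_pos (posW_inj m) _ r q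
      have hag : ∀ q : List Bool, (∀ i, q ≠ hid p x i) → R q = Rg g q := by
        intro q hq
        by_cases hex : ∃ i, posW m i = q
        · obtain ⟨i, rfl⟩ := hex
          rw [a1, a2]
        · have b1 : R q = r q := by
            refine ovr_not b r q ?_
            rintro (i | i | i) hi
            · exact hex ⟨i, hi⟩
            · exact hq _ hi.symm
            · exact hq _ hi.symm
          have b2 : Rg g q = r q := ovr_not _ r q fun i hi => hex ⟨i, hi⟩
          rw [b1, b2]
      have hzz : z R = z (Rg g) := z_congr hz hag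
      have hout : ∀ u : List Bool, u.length = 4 * mm x.length →
          M.out R (pairBits x u) = M.out (Rg g) (pairBits x u) := by
        intro u hu
        refine out_congr hM (fun q hq => hag q ?_) u hu
        rintro i rfl
        rw [length_hid] at hq
        omega
      have hG : ∀ w : Fin m → Bool, G R (List.ofFn w) = List.ofFn (g w) := fun w =>
        G_of R w _ fun j => a1 (w, j)
      have hw0 : wx p R x = List.ofFn (fun i => b (Sum.inr (Sum.inl i))) :=
        hb_of R 0 _ fun j => ovr_pos hinj b r (Sum.inr (Sum.inl j))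
      have hv0 : vx p R x = List.ofFn (fun j => b (Sum.inr (Sum.inr j))) :=
        hb_of R m _ fun j => ovr_pos hinj b r (Sum.inr (Sum.inr j))
      constructor
      · rw [hE]
        rw [← hzz, ← hb1, fo, inst, hw0, hv0, hG, ← hout]
        rw [List.length_append, List.length_ofFn, List.length_ofFn]; omega
      · intro w u hwu
        rw [hE] at hwu
        apply hb2
        refine ⟨List.ofFn u, List.ofFn w, by simp [hm], by simp [hm], ?_⟩
        rw [hG, hG, hout, hzz]
        · exact hwu
        · rw [List.length_append, List.length_ofFn, List.length_ofFn]; omega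
    · intro b _ b' _ h
      simp only [Prod.mk.injEq] at h
      obtain ⟨h1, h2, h3⟩ := h
      funext i
      rcases i with ⟨w, j⟩ | i | i
      · exact congrFun (congrFun h1 w) j
      · exact congrFun h3 i
      · exact congrFun h2 i
  have hcardW : Fintype.card (Fin m → Bool) = 2 ^ m := by simp
  have hcard : Fintype.card ((Fin m → Bool) → (Fin (2 * m) → Bool)) * Fintype.card (Fin (2 * m) → Bool) *
      Fintype.card (Fin m → Bool) = 2 ^ Fintype.card
      (((Fin m → Bool) × Fin (2 * m)) ⊕ (Fin m ⊕ Fin (2 * m))) := by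
    simp only [Fintype.card_pi, Finset.prod_const, Finset.card_univ, Fintype.card_bool, Fintype.card_fin,
      Fintype.card_sum, Fintype.card_prod]
    rw [← pow_mul, ← pow_add, ← pow_add]
    congr 1
    ring
  rw [hcard, hcardW] at hB'
  have h5 : (2 ^ m : ℝ) * ((Finset.univ.filter fun t : ((Fin m → Bool) → (Fin (2 * m) → Bool)) × (Fin (2 * m) → Bool) × (Fin m → Bool) =>
        E t.1 t.2.1 t.2.2 ∧ ∀ w u, ¬ E t.1 (t.1 w) u).card : ℝ) ≤
      2 ^ Fintype.card (((Fin m → Bool) × Fin (2 * m)) ⊕ (Fin m ⊕ Fin (2 * m))) * (2 * (2 * K + 1) + 1) := by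
    exact_mod_cast hB'
  have h6 : ((Finset.univ.filter fun b => ovr (posA p x m) b r ∈
      {R | fo M p R x = z R ∧ ¬ ConfB M R x (z R)}).card : ℝ) ≤
      ((Finset.univ.filter fun t : ((Fin m → Bool) → (Fin (2 * m) → Bool)) × (Fin (2 * m) → Bool) × (Fin m → Bool) =>
        E t.1 t.2.1 t.2.2 ∧ ∀ w u, ¬ E t.1 (t.1 w) u).card : ℝ) := by exact_mod_cast hle
  have h7 : (0 : ℝ) < 2 ^ m := by positivity
  rw [div_mul_eq_mul_div, le_div_iff₀ h7]
  calc _ ≤ ((Finset.univ.filter fun t : ((Fin m → Bool) → (Fin (2 * m) → Bool)) × (Fin (2 * m) → Bool) × (Fin m → Bool) =>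
        E t.1 t.2.1 t.2.2 ∧ ∀ w u, ¬ E t.1 (t.1 w) u).card : ℝ) * 2 ^ m := by gcongr
    _ ≤ _ := by linarith

end core

theorem card_dec {ι : Type} [Fintype ι] (d1 d2 : DecidableEq ι) (P : (ι → Bool) → Prop)
    (c1 c2 : DecidablePred P) (C : ℝ)
    (h : ((@Finset.filter _ P c1 (@Finset.univ (ι → Bool) (@Pi.instFintype ι (fun _ => Bool) d1 _
      (fun _ => Bool.fintype)))).card : ℝ) ≤ C) :
    ((@Finset.filter _ P c2 (@Finset.univ (ι → Bool) (@Pi.instFintype ι (fun _ => Bool) d2 _
      (fun _ => Bool.fintype)))).card : ℝ) ≤ C := by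
  obtain rfl : d1 = d2 := Subsingleton.elim _ _
  obtain rfl : c1 = c2 := Subsingleton.elim _ _
  exact h

theorem taskCollB : TaskPlantB → TaskAvg → TaskCollB := by
  intro hB hAvg M p x z K l hp hM hz
  have hmeas := meas hp hM hz
  refine ⟨hmeas, ?_⟩
  exact hAvg _ (posA p x (mm x.length)) (posA_inj p x _ hp) _ hmeas _ fun r =>
    card_dec _ _ _ _ _ _ (count hB hp hM hz r)

end Pool.Agent.H910R3.ISO.CollB2
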