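import Pool.Agent.H910R3.ISO.Stmts

/-!
# The instance can be computed in polynomial time relative to the oracle
-/

set_option autoImplicit false

namespace Pool.Agent.H910R3.ISO.FP

open Pool.Agent.NPC Pool.Agent.H622R2 Pool.Agent.H628R3.RO

/-- unary numbers from binary numbers with a bound -/
def rep (n i : ℕ) : List Bool :=
  ((List.range n).filter (fun j => decide (j < i))).map (fun _ => true)

theorem length_filter (i : ℕ) : ∀ n : ℕ,
    ((List.range n).filter (fun j => decide (j < i))).length = min i n := by
  intro n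
  induction n with
  | zero => simp
  | succ n ih =>
    rw [List.range_succ, List.filter_append, List.length_append, ih]
    by_cases h : n < i
    · simp [h]
      omega
    · simp [h]
      omega

theorem rep_eq {n i : ℕ} (h : i ≤ n) : rep n i = List.replicate i true := by
  unfold rep
  rw [List.map_const', length_filter, min_eq_left h]

theorem poly_rep {α : Type} [TEnc α] {n i : α → ℕ} (hn : UPoly n) (hi : Poly i) :
    Poly (fun a => rep (n a) (i a)) := by
  unfold rep
  exact NPC.Poly.map (F := fun _ _ => true)
    (NPC.Poly.filter (p := fun a j => decide (j < i a)) hn.range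
      (NPC.Poly.decide_lt (NPC.Poly.snd NPC.Poly.id) (hi.comp (NPC.Poly.fst NPC.Poly.id))))
    (NPC.Poly.const true)

theorem upoly_mm {α : Type} [TEnc α] {n : α → ℕ} (hn : UPoly n) : UPoly (fun a => mm (n a)) :=
  UPoly.mul (UPoly.const 4) (UPoly.add hn (UPoly.const 1))

theorem poly_repl {α : Type} [TEnc α] {n : α → ℕ} (hn : UPoly n) (b : Bool) :
    Poly (fun a => List.replicate (n a) b) :=
  (NPC.Poly.map (F := fun _ _ => b) hn (NPC.Poly.const b)).congr fun x => by simp

/-- `hid` with a bound on the number -/
def hid' (p : Polynomial ℕ) (x : List Bool) (n i : ℕ) : List Bool :=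
  pairBits x (rep n i ++ false :: List.replicate (p.eval x.length) false)

theorem hid'_eq (p : Polynomial ℕ) (x : List Bool) {n i : ℕ} (h : i ≤ n) :
    hid' p x n i = hid p x i := by
  unfold hid' hid
  rw [rep_eq h]

theorem poly_hid' {α : Type} [TEnc α] (p : Polynomial ℕ) {x : α → List Bool} {n i : α → ℕ}
    (hx : Poly x) (hn : UPoly n) (hi : Poly i) : Poly (fun a => hid' p (x a) (n a) (i a)) := by
  unfold hid'
  exact poly_pairBits hx (NPC.Poly.append (poly_rep hn hi) (NPC.Poly.cons (NPC.Poly.const false)
    (poly_repl ((UPoly.length hx).eval p) false)))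

/-- the first questions -/
def Q1 (p : Polynomial ℕ) (x : List Bool) : List (List Bool) :=
  (List.range (mm x.length)).map fun i => hid' p x (mm x.length) i

theorem poly_Q1 (p : Polynomial ℕ) : Poly (Q1 p) := by
  have hl : UPoly (fun x : List Bool => mm x.length) := upoly_mm (UPoly.length NPC.Poly.id)
  exact NPC.Poly.map (F := fun x i => hid' p x (mm x.length) i) hl.range
    (poly_hid' p (NPC.Poly.fst NPC.Poly.id) (upoly_mm (UPoly.length (NPC.Poly.fst NPC.Poly.id)))
      (NPC.Poly.snd NPC.Poly.id))

theorem isFP_wx (R : Oracle) (p : Polynomial ℕ) : IsFP R (fun x => wx p R x) := by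
  have h := IsFP.tt (A := R) (poly_Q1 p) (H := fun q => q.2) (NPC.Poly.snd NPC.Poly.id)
  have e : (fun x => wx p R x) = fun x => (Q1 p x).map R := by
    funext x
    unfold wx hb Q1
    rw [List.map_map]
    apply List.map_congr_left
    intro i hi
    rw [List.mem_range] at hi
    simp only [Function.comp, Nat.zero_add]
    rw [hid'_eq p x hi.le]
  rw [e]
  exact h

/-- the second questions; the input is `pairBits x w` -/
def Q2 (p : Polynomial ℕ) (y : List Bool) : List (List Bool) :=
  ((List.range (2 * (unpair y).2.length)).map fun j =>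
    (unpair y).2 ++ (rep (2 * (unpair y).2.length) j ++ [false])) ++
  ((List.range (2 * mm (unpair y).1.length)).map fun i =>
    hid' p (unpair y).1 (3 * mm (unpair y).1.length) (mm (unpair y).1.length + i))

theorem poly_Q2 (p : Polynomial ℕ) : Poly (Q2 p) := by
  have hx : Poly (fun y => (unpair y).1) := NPC.Poly.fst poly_unpair
  have hw : Poly (fun y => (unpair y).2) := NPC.Poly.snd poly_unpair
  have hx' : Poly (fun q : List Bool × ℕ => (unpair q.1).1) := hx.comp (NPC.Poly.fst NPC.Poly.id)
  have hw' : Poly (fun q : List Bool × ℕ => (unpair q.1).2) := hw.comp (NPC.Poly.fst NPC.Poly.id)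
  have hi' : Poly (fun q : List Bool × ℕ => q.2) := NPC.Poly.snd NPC.Poly.id
  refine NPC.Poly.append ?_ ?_
  · exact NPC.Poly.map (F := fun y j =>
      (unpair y).2 ++ (rep (2 * (unpair y).2.length) j ++ [false]))
      (UPoly.mul (UPoly.const 2) (UPoly.length hw)).range
      (NPC.Poly.append hw' (NPC.Poly.append (poly_rep (UPoly.mul (UPoly.const 2)
        (UPoly.length hw')) hi') (NPC.Poly.const [false])))
  · exact NPC.Poly.map (F := fun y i =>
      hid' p (unpair y).1 (3 * mm (unpair y).1.length) (mm (unpair y).1.length + i))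
      (UPoly.mul (UPoly.const 2) (upoly_mm (UPoly.length hx))).range
      (poly_hid' p hx' (UPoly.mul (UPoly.const 3) (upoly_mm (UPoly.length hx')))
        (NPC.Poly.add (upoly_mm (UPoly.length hx')).toPoly hi'))

/-- the second function -/
def T2 (p : Polynomial ℕ) (R : Oracle) (y : List Bool) : List Bool :=
  pairBits (unpair y).1 ((Q2 p y).map R)

theorem isFP_T2 (R : Oracle) (p : Polynomial ℕ) : IsFP R (T2 p R) :=
  IsFP.tt (A := R) (poly_Q2 p) (H := fun q => pairBits (unpair q.1).1 q.2)
    (poly_pairBits ((NPC.Poly.fst poly_unpair).comp (NPC.Poly.fst NPC.Poly.id))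
      (NPC.Poly.snd NPC.Poly.id))

theorem T2_eq (R : Oracle) (p : Polynomial ℕ) (x : List Bool) :
    T2 p R (pairBits x (wx p R x)) = inst p R x := by
  unfold T2 inst Q2
  rw [unpair_pairBits, List.map_append]
  congr 2
  · unfold G
    rw [List.map_map]
    apply List.map_congr_left
    intro j hj
    rw [List.mem_range] at hj
    simp only [Function.comp]
    rw [rep_eq hj.le]
    rfl
  · unfold vx hb
    rw [List.map_map]
    apply List.map_congr_left
    intro i hi
    rw [List.mem_range] at hi
    change i < 2 * mm x.length at hi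
    simp only [Function.comp]
    rw [hid'_eq p x (by omega)]

theorem taskFP : TaskFP := by
  intro R F p hF
  have h1 : IsFP R (fun x => inst p R x) := by
    have h := IsFP.seq (isFP_wx R p) (isFP_T2 R p) (φ := fun q => pairBits q.1 q.2)
      (ψ := fun q => q.2.2) (poly_pairBits (NPC.Poly.fst NPC.Poly.id) (NPC.Poly.snd NPC.Poly.id))
      (NPC.Poly.snd (NPC.Poly.snd NPC.Poly.id))
    have e : (fun x => inst p R x) = fun x => T2 p R (pairBits x (wx p R x)) := by
      funext x
      rw [T2_eq]
    rw [e]
    exact h
  exact IsFP.seq h1 hF (φ := fun q => q.2) (ψ := fun q => q.2.2) (NPC.Poly.snd NPC.Poly.id)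
    (NPC.Poly.snd (NPC.Poly.snd NPC.Poly.id))

end Pool.Agent.H910R3.ISO.FP
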