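import Pool.Agent.H910R3.ISO.Stmts

set_option autoImplicit false

namespace Pool.Agent.H910R3.ISO.LocF

open MeasureTheory Pool.Agent.NPC Pool.Agent.H628R3.RO

theorem length_pairBits (x w : List Bool) : (pairBits x w).length = 2 * x.length + 1 + w.length := by
  unfold pairBits
  have : (x.flatMap (fun b => [true, b])).length = 2 * x.length := by
    induction x with
    | nil => rfl
    | cons a t ih => simp [List.flatMap_cons, ih]; omega
  rw [List.length_append, this, List.length_cons]
  omega

theorem pairBits_inj_left {x x' w w' : List Bool} (h : pairBits x w = pairBits x' w') : x = x' := by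
  have := congrArg unpair h
  rw [unpair_pairBits, unpair_pairBits] at this
  exact (Prod.ext_iff.1 this).1

theorem length_hid (p : Polynomial ℕ) (x : List Bool) (i : ℕ) :
    (hid p x i).length = 2 * x.length + 2 + i + p.eval x.length := by
  unfold hid
  rw [length_pairBits]
  simp
  omega

theorem length_loc (w : List Bool) (j : ℕ) : (loc w j).length = w.length + j + 1 := by
  unfold loc
  simp
  omega

theorem poly_mono (p : Polynomial ℕ) {a b : ℕ} (h : a ≤ b) : p.eval a ≤ p.eval b := by
  rw [Polynomial.eval_eq_sum, Polynomial.eval_eq_sum]
  unfold Polynomial.sum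
  exact Finset.sum_le_sum fun i _ => Nat.mul_le_mul_left _ (Nat.pow_le_pow_left h i)

theorem mm_mono {a b : ℕ} (h : a ≤ b) : mm a ≤ mm b := by
  unfold mm; omega

theorem taskLocF : TaskLocF := by
  intro M p x x' K hp hM hlen hne R
  set w := wx p R x' with hw
  set v := vx p R x' with hv
  have hwl : w.length = mm x'.length := by
    rw [hw]; simp [wx, hb]
  have hvl : v.length = 2 * mm x'.length := by
    rw [hv]; simp [vx, hb]
  have hGl : (G R w).length = 2 * mm x'.length := by
    simp [G, hwl]
  obtain ⟨Q0, hQ0c, hQ0l, hQ0⟩ := hM R (G R w ++ v) (by rw [List.length_append, hGl, hvl]; omega)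
  have hpm : p.eval x'.length ≤ p.eval x.length := poly_mono p hlen
  have hmm : mm x'.length ≤ mm x.length := mm_mono hlen
  classical
  set Q1 : Finset (List Bool) := (Finset.range (3 * mm x'.length)).image (hid p x') with hQ1
  set Q2 : Finset (List Bool) := (Finset.range (2 * mm x'.length)).image (loc w) with hQ2
  refine ⟨Q0 ∪ Q1 ∪ Q2, ?_, ?_, ?_, ?_⟩
  · have h1 : Q1.card ≤ 3 * mm x'.length := by
      rw [hQ1]; exact Finset.card_image_le.trans (by simp)
    have h2 : Q2.card ≤ 2 * mm x'.length := by
      rw [hQ2]; exact Finset.card_image_le.trans (by simp)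
    have h3 := Finset.card_union_le (Q0 ∪ Q1) Q2
    have h4 := Finset.card_union_le Q0 Q1
    omega
  · intro q hq
    rcases Finset.mem_union.1 hq with hq | hq
    · rcases Finset.mem_union.1 hq with hq | hq
      · have := hQ0l q hq
        omega
      · obtain ⟨i, hi, rfl⟩ := Finset.mem_image.1 hq
        have := Finset.mem_range.1 hi
        rw [length_hid]
        omega
    · obtain ⟨j, hj, rfl⟩ := Finset.mem_image.1 hq
      have := Finset.mem_range.1 hj
      rw [length_loc, hwl]
      omega
  · intro q hq i hqi
    rcases Finset.mem_union.1 hq with hq | hq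
    · rcases Finset.mem_union.1 hq with hq | hq
      · have h1 := hQ0l q hq
        rw [hqi, length_hid] at h1
        omega
      · obtain ⟨i', hi', h⟩ := Finset.mem_image.1 hq
        rw [hqi] at h
        exact hne (pairBits_inj_left h)
    · obtain ⟨j, hj, h⟩ := Finset.mem_image.1 hq
      have h1 := Finset.mem_range.1 hj
      have h2 := congrArg List.length h
      rw [hqi, length_hid, length_loc, hwl] at h2
      omega
  · intro R' hR'
    have hhid : ∀ i < 3 * mm x'.length, R' (hid p x' i) = R (hid p x' i) := by
      intro i hi
      refine hR' _ (Finset.mem_union_left _ (Finset.mem_union_right _ ?_))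
      exact Finset.mem_image_of_mem _ (Finset.mem_range.2 hi)
    have hw' : wx p R' x' = w := by
      rw [hw]
      unfold wx hb
      refine List.map_congr_left fun i hi => ?_
      have := List.mem_range.1 hi
      exact hhid _ (by omega)
    have hv' : vx p R' x' = v := by
      rw [hv]
      unfold vx hb
      refine List.map_congr_left fun i hi => ?_
      have := List.mem_range.1 hi
      exact hhid _ (by omega)
    have hG' : G R' w = G R w := by
      unfold G
      refine List.map_congr_left fun j hj => ?_
      have := List.mem_range.1 hj
      refine hR' _ (Finset.mem_union_right _ ?_)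
      exact Finset.mem_image_of_mem _ (Finset.mem_range.2 (by rw [hwl] at this; exact this))
    show fo M p R' x' = fo M p R x'
    unfold fo inst
    rw [hw', hv', hG', ← hw, ← hv]
    exact hQ0 R' fun q hq => hR' q (Finset.mem_union_left _ (Finset.mem_union_left _ hq))

end Pool.Agent.H910R3.ISO.LocF
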