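import Pool.Agent.H910R3.ISO.Stmts

set_option autoImplicit false

/-!
# One-one reductions relative to a random oracle: task NP (helper191)
-/

namespace Pool.Agent.H910R3.ISO.NP

open Pool.Agent.NPC Pool.Agent.H622R2 Pool.Agent.H628R3.RO Pool.Agent.H910R3.ISO

theorem length_unpair_fst (s : List Bool) : (unpair s).1.length ≤ s.length := by
  have h1 : ∀ t : List Bool × List Bool × Bool, (ustep t).1.length ≤ t.1.length + 1 := by
    rintro ⟨a, l, b⟩
    unfold ustep
    cases b with
    | true => simp
    | false =>
      match l with
      | [] => simp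
      | true :: [] => simp
      | true :: c :: l' => simp
      | false :: l' => simp
  have h2 : ∀ (k : ℕ) (t : List Bool × List Bool × Bool),
      (ustep^[k] t).1.length ≤ t.1.length + k := by
    intro k
    induction k with
    | zero => intro t; simp
    | succ k ih =>
      intro t
      rw [Function.iterate_succ_apply]
      have := ih (ustep t)
      have := h1 t
      omega
  have h3 := h2 s.length ([], s, false)
  unfold unpair
  simp only [List.length_reverse]
  simpa using h3

/-- the first half -/
def hf (u : List Bool) (n : ℕ) : List Bool := (List.range n).map fun i => u.getD i false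

/-- the second half -/
def hs (u : List Bool) (n : ℕ) : List Bool := (List.range n).map fun i => u.getD (n + i) false

theorem hf_append (u1 u2 : List Bool) (n : ℕ) (h : u1.length = n) : hf (u1 ++ u2) n = u1 := by
  subst h
  apply List.ext_getElem
  · simp [hf]
  · intro i h1 h2
    simp only [hf, List.getElem_map, List.getElem_range]
    rw [List.getD_eq_getElem?_getD, List.getElem?_append_left h2, List.getElem?_eq_getElem h2]
    rfl

theorem hs_append (u1 u2 : List Bool) (n : ℕ) (h : u1.length = n) (h' : u2.length = n) :
    hs (u1 ++ u2) n = u2 := by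
  subst h
  apply List.ext_getElem
  · simp [hs, h']
  · intro i h1 h2
    simp only [hs, List.getElem_map, List.getElem_range]
    rw [List.getD_eq_getElem?_getD, List.getElem?_append_right (by omega),
      Nat.add_sub_cancel_left, List.getElem?_eq_getElem h2]
    rfl

/-- the argument of `G` given by the witness -/
def ws (w : List Bool) : List Bool := if w.head? = some false then w.tail else (unpair w.tail).1

theorem poly_ws : Poly ws :=
  Poly.ite (Poly.decide_eq (Poly.head? Poly.id) (NPC.Poly.const _)) (Poly.tail Poly.id)
    (Poly.fst (poly_unpair.comp (Poly.tail Poly.id)))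

/-- the witness part of the input of the verifier -/
def wy (y : List Bool) : List Bool := ws (unpair y).2

theorem poly_wy : Poly wy := poly_ws.comp (Poly.snd poly_unpair)

/-- the questions -/
def Qs (y : List Bool) : List (List Bool) :=
  (List.range (2 * (wy y).length)).map fun j => loc (wy y) (min j (2 * (wy y).length))

theorem Qs_map (R : Oracle) (y : List Bool) : (Qs y).map R = G R (wy y) := by
  unfold Qs G
  rw [List.map_map]
  refine List.map_congr_left fun j hj => ?_
  rw [List.mem_range] at hj
  simp only [Function.comp_apply]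
  rw [min_eq_left hj.le]

theorem upoly_two : UPoly (fun y => 2 * (wy y).length) :=
  UPoly.mul (UPoly.const 2) (UPoly.length poly_wy)

theorem poly_Qs : Poly Qs := by
  unfold Qs
  refine NPC.Poly.map (F := fun y j => loc (wy y) (min j (2 * (wy y).length))) upoly_two.range ?_
  have h1 : UPoly (fun p : List Bool × ℕ => min p.2 (2 * (wy p.1).length)) := by
    refine UPoly.of_le (n := fun p : List Bool × ℕ => 2 * (wy p.1).length) ?_
      (upoly_two.comp (Poly.fst Poly.id)) (fun p => min_le_right _ _)
    exact Poly.min (Poly.snd Poly.id) ((upoly_two.comp (Poly.fst Poly.id)).toPoly)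
  have h2 : Poly (fun p : List Bool × ℕ =>
      List.replicate (min p.2 (2 * (wy p.1).length)) true) :=
    (NPC.Poly.map (F := fun _ _ => true) h1 (NPC.Poly.const true)).congr fun p => by simp
  unfold loc
  exact Poly.append (poly_wy.comp (Poly.fst Poly.id)) (Poly.append h2 (NPC.Poly.const _))

theorem isFP_G (R : Oracle) : IsFP R (fun y => G R (wy y)) := by
  have h := IsFP.tt (A := R) (Q := Qs) (H := fun t => t.2) poly_Qs (Poly.snd Poly.id)
  simpa only [Qs_map] using h

/-- the components of the input -/
def sx (y : List Bool) : List Bool := (unpair (unpair y).1).1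

def su (y : List Bool) : List Bool := (unpair (unpair y).1).2

def wB (y : List Bool) : List Bool := (unpair (unpair y).2.tail).2

theorem poly_sx : Poly sx := Poly.fst (poly_unpair.comp (Poly.fst poly_unpair))

theorem poly_su : Poly su := Poly.snd (poly_unpair.comp (Poly.fst poly_unpair))

theorem poly_wB : Poly wB := Poly.snd (poly_unpair.comp (Poly.tail (Poly.snd poly_unpair)))

/-- the final check -/
def chk (p : Polynomial ℕ) (t : List Bool × List Bool × List Bool) : Bool :=
  decide ((unpair t.1).1 = pairBits (sx t.1) (su t.1)) &&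
  (decide ((su t.1).length = 4 * mm (sx t.1).length) &&
  ((decide ((unpair t.1).2.head? = some false) &&
      decide (t.2.1 = hs (su t.1) (2 * mm (sx t.1).length))) ||
    (decide ((unpair t.1).2.head? = some true) &&
      (decide (t.2.1 = hf (su t.1) (2 * mm (sx t.1).length)) &&
        (decide ((wB t.1).length ≤ p.eval (sx t.1).length) && decide (t.2.2 = [true]))))))

theorem upoly_mm : UPoly (fun y => mm (sx y).length) :=
  UPoly.mul (UPoly.const 4) (UPoly.add (UPoly.length poly_sx) (UPoly.const 1))

theorem poly_chk (p : Polynomial ℕ) : Poly (chk p) := by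
  have hy : Poly (fun t : List Bool × List Bool × List Bool => t.1) := Poly.fst Poly.id
  have hg : Poly (fun t : List Bool × List Bool × List Bool => t.2.1) :=
    Poly.fst (Poly.snd Poly.id)
  have hv : Poly (fun t : List Bool × List Bool × List Bool => t.2.2) :=
    Poly.snd (Poly.snd Poly.id)
  have hx : Poly (fun t : List Bool × List Bool × List Bool => sx t.1) := poly_sx.comp hy
  have hu : Poly (fun t : List Bool × List Bool × List Bool => su t.1) := poly_su.comp hy
  have hm2 : UPoly (fun y => 2 * mm (sx y).length) := UPoly.mul (UPoly.const 2) upoly_mm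
  have hm4 : UPoly (fun y => 4 * mm (sx y).length) := UPoly.mul (UPoly.const 4) upoly_mm
  have hm2' : UPoly (fun t : List Bool × List Bool × List Bool => 2 * mm (sx t.1).length) :=
    hm2.comp hy
  have hhs : Poly (fun t : List Bool × List Bool × List Bool =>
      hs (su t.1) (2 * mm (sx t.1).length)) := by
    unfold hs
    refine NPC.Poly.map (F := fun (t : List Bool × List Bool × List Bool) i =>
      (su t.1).getD (2 * mm (sx t.1).length + i) false) hm2'.range ?_
    exact Poly.getD (poly_su.comp (Poly.fst (Poly.fst Poly.id)))
      (Poly.add ((hm2.comp (Poly.fst (Poly.fst Poly.id))).toPoly) (Poly.snd Poly.id))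
      (NPC.Poly.const false)
  have hhf : Poly (fun t : List Bool × List Bool × List Bool =>
      hf (su t.1) (2 * mm (sx t.1).length)) := by
    unfold hf
    refine NPC.Poly.map (F := fun (t : List Bool × List Bool × List Bool) i =>
      (su t.1).getD i false) hm2'.range ?_
    exact Poly.getD (poly_su.comp (Poly.fst (Poly.fst Poly.id))) (Poly.snd Poly.id)
      (NPC.Poly.const false)
  have h2 : Poly (fun t : List Bool × List Bool × List Bool => (unpair t.1).2) :=
    (Poly.snd poly_unpair).comp hy
  unfold chk
  refine Poly.and (Poly.decide_eq ((Poly.fst poly_unpair).comp hy) (poly_pairBits hx hu))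
    (Poly.and (Poly.decide_eq (Poly.length hu) ((hm4.comp hy).toPoly))
    (Poly.or (Poly.and (Poly.decide_eq (Poly.head? h2) (NPC.Poly.const _))
      (Poly.decide_eq hg hhs)) (Poly.and (Poly.decide_eq (Poly.head? h2) (NPC.Poly.const _))
        (Poly.and (Poly.decide_eq hg hhf) (Poly.and (Poly.decide_le
          (Poly.length (poly_wB.comp hy)) ?_) (Poly.decide_eq hv (NPC.Poly.const _)))))))
  exact (((UPoly.length poly_sx).eval p).comp hy).toPoly

theorem isNP_CB (R : Oracle) (B : Set (List Bool)) (hB : IsNP R B) : IsNP R (CB R B) := by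
  obtain ⟨V, p, hV, hVB⟩ := hB
  let φ : List Bool × List Bool → List Bool := fun t => pairBits (sx t.1) (wB t.1)
  let ψ : List Bool × List Bool × List Bool → List Bool := fun t => [chk p t]
  have hφ : Poly φ := poly_pairBits (poly_sx.comp (Poly.fst Poly.id))
    (poly_wB.comp (Poly.fst Poly.id))
  have hψ : Poly ψ := Poly.cons (poly_chk p) (NPC.Poly.const [])
  have hfp := IsFP.seq (isFP_G R) hV hφ hψ
  refine ⟨_, Polynomial.C 8 * (Polynomial.X + Polynomial.C 1) + Polynomial.C 2 + p, hfp,
    fun s => ?_⟩
  have hval : ∀ w : List Bool, ((ψ (pairBits s w, G R (wy (pairBits s w)),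
      V (φ (pairBits s w, G R (wy (pairBits s w)))))) = [true]) ↔
      (s = pairBits (unpair s).1 (unpair s).2 ∧
        (unpair s).2.length = 4 * mm (unpair s).1.length ∧
        ((w.head? = some false ∧ G R (ws w) = hs (unpair s).2 (2 * mm (unpair s).1.length)) ∨
        (w.head? = some true ∧ G R (ws w) = hf (unpair s).2 (2 * mm (unpair s).1.length) ∧
          (unpair w.tail).2.length ≤ p.eval (unpair s).1.length ∧
          V (pairBits (unpair s).1 (unpair w.tail).2) = [true]))) := by
    intro w
    simp only [ψ, φ, chk, wy, sx, su, wB, unpair_pairBits, List.cons.injEq, and_true,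
      Bool.and_eq_true, Bool.or_eq_true, decide_eq_true_eq]
  have hGlen : ∀ w : List Bool, (G R w).length = 2 * w.length := by
    intro w; simp [G]
  constructor
  · rintro ⟨x, u1, u2, rfl, h1, h2, h3⟩
    have hlen : (pairBits x (u1 ++ u2)).length = 2 * x.length + 1 + (u1 ++ u2).length :=
      length_pairBits x (u1 ++ u2)
    have hxl : x.length ≤ (pairBits x (u1 ++ u2)).length := by omega
    rcases h3 with ⟨hxB, w1, hw1⟩ | ⟨w2, hw2⟩
    · obtain ⟨wb, hwb1, hwb2⟩ := (hVB x).1 hxB
      refine ⟨true :: pairBits w1 wb, ?_, ?_⟩
      · have h4 : 2 * w1.length = 2 * mm x.length := by rw [← hGlen, hw1, h1]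
        have h5 : (pairBits w1 wb).length = 2 * w1.length + 1 + wb.length :=
          length_pairBits w1 wb
        have h6 := eval_mono p hxl
        rw [List.length_cons, h5]
        simp only [Polynomial.eval_add, Polynomial.eval_mul, Polynomial.eval_C, Polynomial.eval_X]
        unfold mm at h4
        omega
      · rw [hval]
        simp only [unpair_pairBits]
        refine ⟨trivial, by rw [List.length_append, h1, h2]; ring, Or.inr ⟨rfl, ?_, ?_, ?_⟩⟩
        · rw [hf_append u1 u2 _ h1]
          simp only [ws, List.head?_cons, List.tail_cons, unpair_pairBits]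
          simpa using hw1
        · simpa only [List.tail_cons, unpair_pairBits] using hwb1
        · simpa only [List.tail_cons, unpair_pairBits] using hwb2
    · refine ⟨false :: w2, ?_, ?_⟩
      · have h4 : 2 * w2.length = 2 * mm x.length := by rw [← hGlen, hw2, h2]
        rw [List.length_cons]
        simp only [Polynomial.eval_add, Polynomial.eval_mul, Polynomial.eval_C, Polynomial.eval_X]
        unfold mm at h4
        omega
      · rw [hval]
        simp only [unpair_pairBits]
        refine ⟨trivial, by rw [List.length_append, h1, h2]; ring, Or.inl ⟨rfl, ?_⟩⟩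
        rw [hs_append u1 u2 _ h1 h2]
        simpa [ws] using hw2
  · rintro ⟨w, _, hw⟩
    rw [hval] at hw
    obtain ⟨h1, h2, h3⟩ := hw
    generalize unpair s = xu at h1 h2 h3
    obtain ⟨x, u⟩ := xu
    simp only at h1 h2 h3
    have h4 : (u.take (2 * mm x.length)).length = 2 * mm x.length := by
      rw [List.length_take]; omega
    have h5 : (u.drop (2 * mm x.length)).length = 2 * mm x.length := by
      rw [List.length_drop]; omega
    have h6 : u.take (2 * mm x.length) ++ u.drop (2 * mm x.length) = u := List.take_append_drop _ _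
    refine ⟨x, u.take (2 * mm x.length), u.drop (2 * mm x.length), by rw [h6]; exact h1, h4, h5, ?_⟩
    rcases h3 with ⟨_, h7⟩ | ⟨_, h7, h8, h9⟩
    · right
      refine ⟨ws w, h7.trans ?_⟩
      conv_lhs => rw [← h6]
      exact hs_append _ _ _ h4 h5
    · left
      refine ⟨(hVB x).2 ⟨_, h8, h9⟩, ws w, h7.trans ?_⟩
      conv_lhs => rw [← h6]
      exact hf_append _ _ _ h4

theorem isNP_fst (R : Oracle) (B : Set (List Bool)) (hB : IsNP R B) :
    IsNP R {s | (unpair s).1 ∈ B} := by
  obtain ⟨V, p, hV, hVB⟩ := hB
  let φ : List Bool × List Bool → List Bool := fun t => pairBits (sx t.1) (unpair t.1).2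
  let ψ : List Bool × List Bool × List Bool → List Bool := fun t =>
    [decide ((unpair t.1).2.length ≤ p.eval (sx t.1).length) && decide (t.2.2 = [true])]
  have hy : Poly (fun t : List Bool × List Bool × List Bool => t.1) := Poly.fst Poly.id
  have hφ : Poly φ := poly_pairBits (poly_sx.comp (Poly.fst Poly.id))
    ((Poly.snd poly_unpair).comp (Poly.fst Poly.id))
  have hψ : Poly ψ := by
    refine Poly.cons (Poly.and (Poly.decide_le (Poly.length ((Poly.snd poly_unpair).comp hy)) ?_)
      (Poly.decide_eq (Poly.snd (Poly.snd Poly.id)) (NPC.Poly.const _))) (NPC.Poly.const [])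
    exact (((UPoly.length poly_sx).eval p).comp hy).toPoly
  have hfp := IsFP.seq (isFP_G R) hV hφ hψ
  refine ⟨_, p, hfp, fun s => ?_⟩
  have hval : ∀ w : List Bool, ((ψ (pairBits s w, G R (wy (pairBits s w)),
      V (φ (pairBits s w, G R (wy (pairBits s w)))))) = [true]) ↔
      (w.length ≤ p.eval (unpair s).1.length ∧ V (pairBits (unpair s).1 w) = [true]) := by
    intro w
    simp only [ψ, φ, sx, unpair_pairBits, List.cons.injEq, and_true,
      Bool.and_eq_true, decide_eq_true_eq]
  show (unpair s).1 ∈ B ↔ _
  rw [hVB]
  constructor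
  · rintro ⟨w, h1, h2⟩
    exact ⟨w, h1.trans (eval_mono p (length_unpair_fst s)), (hval w).2 ⟨h1, h2⟩⟩
  · rintro ⟨w, _, h2⟩
    exact ⟨w, (hval w).1 h2⟩

theorem taskNP : TaskNP := fun R B hB => ⟨isNP_CB R B hB, isNP_fst R B hB⟩

end Pool.Agent.H910R3.ISO.NP
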