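import Pool.Agent.H910R3.ISO.Stmts
import Pool.Agent.H620R2.Gauge2.Trans

/-!
# Closure of `PSPACE` relative to an oracle
-/

set_option autoImplicit false

namespace Pool.Agent.H910R3.ISO.PS

open Pool.Agent.NPC Pool.Agent.H622R2 Pool.Agent.H620R2.Gauge

/-- polynomial-time properties -/
theorem dec (A : List Bool → Bool) {c : List Bool → Bool} (hc : Poly c) :
    IsPSPACE A {s | c s = true} := by
  have h := IsFP.tt (A := A) (Q := fun _ : List Bool => ([] : List (List Bool)))
    (H := fun p : List Bool × List Bool => if c p.1 = true then [true] else []) (NPC.Poly.const [])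
    (Poly.ite (Poly.decide_bool (hc.comp (Poly.fst Poly.id))) (NPC.Poly.const _)
      (NPC.Poly.const _))
  refine IsP.isPSPACE ⟨_, h, fun x => ?_⟩
  show c x = true ↔ (if c x = true then [true] else []) = [true]
  by_cases hx : c x = true <;> simp [hx]

/-- choice between two languages by a polynomial-time property of the input -/
theorem cases {A : List Bool → Bool} {L1 L2 : Set (List Bool)} (h1 : IsPSPACE A L1)
    (h2 : IsPSPACE A L2) {c : List Bool → Bool} (hc : Poly c) :
    IsPSPACE A {s | (c s = true ∧ s ∈ L1) ∨ (c s = false ∧ s ∈ L2)} := by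
  obtain ⟨M1, p1, h1⟩ := h1
  obtain ⟨M2, p2, h2⟩ := h2
  have hf : Poly (fun z : List Bool => c (unpair z).1) := hc.comp (Poly.fst poly_unpair)
  have hA : Poly (fun z : List Bool => if c (unpair z).1 = true then M1.act z else M2.act z) :=
    Poly.ite (Poly.decide_bool hf) (poly_of_polyTime M1.act_poly) (poly_of_polyTime M2.act_poly)
  have hN : Poly (fun z : List Bool => if c (unpair z).1 = true then M1.next z else M2.next z) :=
    Poly.ite (Poly.decide_bool hf) (poly_of_polyTime M1.next_poly) (poly_of_polyTime M2.next_poly)
  let M : SAlg := ⟨_, polyTime_of_poly_list hA, _, polyTime_of_poly_list hN⟩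
  refine ⟨M, p1 + p2, fun x => ?_⟩
  rcases hx : c x with _ | _
  · have hact : ∀ s, M.act (pairBits x s) = M2.act (pairBits x s) := by
      intro s
      show (if c (unpair (pairBits x s)).1 = true then _ else _) = _
      rw [unpair_pairBits, if_neg (by simp [hx])]
    have hnext : ∀ s, M.next (pairBits x s) = M2.next (pairBits x s) := by
      intro s
      show (if c (unpair (pairBits x s)).1 = true then _ else _) = _
      rw [unpair_pairBits, if_neg (by simp [hx])]
    have hr : ∀ s, M.Reach A x s ↔ M2.Reach A x s := by
      intro s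
      constructor
      · intro h
        induction h with
        | start => exact SAlg.Reach.start
        | step _ h ih => rw [hnext]; rw [hact] at h; exact SAlg.Reach.step ih h
      · intro h
        induction h with
        | start => exact SAlg.Reach.start
        | step _ h ih => rw [← hnext]; rw [← hact] at h; exact SAlg.Reach.step ih h
    obtain ⟨e1, s, z, e2, e3, e4⟩ := h2 x
    refine ⟨fun s hs => ?_, s, z, (hr s).2 e2, by rw [hact]; exact e3, ?_⟩
    · rw [Polynomial.eval_add]
      exact (e1 s ((hr s).1 hs)).trans (Nat.le_add_left _ _)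
    · rw [← e4]
      simp [hx]
  · have hact : ∀ s, M.act (pairBits x s) = M1.act (pairBits x s) := by
      intro s
      show (if c (unpair (pairBits x s)).1 = true then _ else _) = _
      rw [unpair_pairBits, if_pos hx]
    have hnext : ∀ s, M.next (pairBits x s) = M1.next (pairBits x s) := by
      intro s
      show (if c (unpair (pairBits x s)).1 = true then _ else _) = _
      rw [unpair_pairBits, if_pos hx]
    have hr : ∀ s, M.Reach A x s ↔ M1.Reach A x s := by
      intro s
      constructor
      · intro h
        induction h with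
        | start => exact SAlg.Reach.start
        | step _ h ih => rw [hnext]; rw [hact] at h; exact SAlg.Reach.step ih h
      · intro h
        induction h with
        | start => exact SAlg.Reach.start
        | step _ h ih => rw [← hnext]; rw [← hact] at h; exact SAlg.Reach.step ih h
    obtain ⟨e1, s, z, e2, e3, e4⟩ := h1 x
    refine ⟨fun s hs => ?_, s, z, (hr s).2 e2, by rw [hact]; exact e3, ?_⟩
    · rw [Polynomial.eval_add]
      exact (e1 s ((hr s).1 hs)).trans (Nat.le_add_right _ _)
    · rw [← e4]
      simp [hx]

theorem union {A : List Bool → Bool} {L1 L2 : Set (List Bool)} (h1 : IsPSPACE A L1)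
    (h2 : IsPSPACE A L2) : IsPSPACE A (L1 ∪ L2) := by
  have hs : Poly (fun z : List Bool => (unpair z).2) := Poly.snd poly_unpair
  have hc : Poly (fun z : List Bool => (unpair z).1.isEmpty) :=
    Poly.isEmpty (Poly.fst poly_unpair)
  have h := (cases (h1.precomp hs) (h2.precomp hs) hc).exists_short (UPoly.const 1)
  have e : {y : List Bool | ∃ w : List Bool, w.length ≤ 1 ∧ pairBits w y ∈
      {s | ((unpair s).1.isEmpty = true ∧ s ∈ {y | (unpair y).2 ∈ L1}) ∨
        ((unpair s).1.isEmpty = false ∧ s ∈ {y | (unpair y).2 ∈ L2})}} = L1 ∪ L2 := by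
    ext y
    simp only [Set.mem_ofPred_eq, unpair_pairBits, Set.mem_union]
    constructor
    · rintro ⟨w, _, ⟨_, h⟩ | ⟨_, h⟩⟩
      · exact Or.inl h
      · exact Or.inr h
    · rintro (h | h)
      · exact ⟨[], by simp, Or.inl ⟨rfl, h⟩⟩
      · exact ⟨[true], by simp, Or.inr ⟨rfl, h⟩⟩
  rw [e] at h
  exact h

theorem inter {A : List Bool → Bool} {L1 L2 : Set (List Bool)} (h1 : IsPSPACE A L1)
    (h2 : IsPSPACE A L2) : IsPSPACE A (L1 ∩ L2) := by
  have h := (union h1.compl h2.compl).compl
  rwa [Set.compl_union, compl_compl, compl_compl] at h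

/-! ### the function `G` -/

/-- the questions -/
def qG (w : List Bool) : List (List Bool) :=
  (List.range (2 * w.length)).map fun j =>
    w ++ (((List.range (2 * w.length)).filter fun k => decide (k < j)).map (fun _ => true) ++
      [false])

theorem filter_range {j n : ℕ} (h : j ≤ n) :
    (List.range n).filter (fun k => decide (k < j)) = List.range j := by
  obtain ⟨d, rfl⟩ := Nat.exists_eq_add_of_le h
  rw [List.range_add, List.filter_append]
  have h1 : (List.range j).filter (fun k => decide (k < j)) = List.range j := by
    rw [List.filter_eq_self]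
    intro k hk
    simpa using hk
  have h2 : ((List.range d).map (fun x => j + x)).filter (fun k => decide (k < j)) = [] := by
    rw [List.filter_eq_nil_iff]
    intro k hk
    simp at hk ⊢
    omega
  rw [h1, h2, List.append_nil]

theorem qG_eq (R : List Bool → Bool) (w : List Bool) : (qG w).map R = G R w := by
  unfold qG G
  rw [List.map_map]
  apply List.map_congr_left
  intro j hj
  rw [List.mem_range] at hj
  simp only [Function.comp_apply, loc]
  rw [filter_range hj.le, List.map_const', List.length_range]

theorem poly_range2 {α : Type} [TEnc α] {w : α → List Bool} (hw : Poly w) :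
    Poly (fun a => List.range (2 * (w a).length)) :=
  (UPoly.mul (UPoly.const 2) (UPoly.length hw)).range

theorem poly_qG : Poly qG := by
  have h1 : Poly (fun p : List Bool × ℕ =>
      (List.range (2 * p.1.length)).filter fun k => decide (k < p.2)) :=
    Poly.filter (p := fun (p : List Bool × ℕ) k => decide (k < p.2))
      (poly_range2 (Poly.fst Poly.id)) (Poly.decide_lt (Poly.snd Poly.id)
        (Poly.snd (Poly.fst Poly.id)))
  have h2 : Poly (fun p : List Bool × ℕ =>
      ((List.range (2 * p.1.length)).filter fun k => decide (k < p.2)).map (fun _ => true)) :=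
    NPC.Poly.map (F := fun _ _ => true) h1 (NPC.Poly.const _)
  exact NPC.Poly.map (F := fun (w : List Bool) (j : ℕ) =>
    w ++ (((List.range (2 * w.length)).filter fun k => decide (k < j)).map (fun _ => true) ++
      [false])) (poly_range2 Poly.id)
    (Poly.append (Poly.fst Poly.id) (Poly.append h2 (NPC.Poly.const _)))

theorem G_length (R : List Bool → Bool) (w : List Bool) : (G R w).length = 2 * w.length := by
  simp [G]

theorem eqG (R : List Bool → Bool) {g : List Bool → List Bool} (hg : Poly g) :
    IsPSPACE R {z | G R (unpair z).1 = g (unpair z).2} := by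
  have h := IsFP.tt (A := R) (Q := fun z : List Bool => qG (unpair z).1)
    (H := fun p : List Bool × List Bool => if p.2 = g (unpair p.1).2 then [true] else [])
    (poly_qG.comp (Poly.fst poly_unpair))
    (Poly.ite (Poly.decide_eq (Poly.snd Poly.id)
      (hg.comp ((Poly.snd poly_unpair).comp (Poly.fst Poly.id)))) (NPC.Poly.const _)
      (NPC.Poly.const _))
  refine IsP.isPSPACE ⟨_, h, fun x => ?_⟩
  simp only [Set.mem_ofPred_eq, qG_eq]
  by_cases hx : G R (unpair x).1 = g (unpair x).2 <;> simp [hx]

theorem inRange (R : List Bool → Bool) {g : List Bool → List Bool} (hg : Poly g) :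
    IsPSPACE R {s | InRange R (g s)} := by
  have h := (eqG R hg).exists_short (UPoly.length hg)
  have e : {y : List Bool | ∃ w : List Bool, w.length ≤ (g y).length ∧ pairBits w y ∈
      {z | G R (unpair z).1 = g (unpair z).2}} = {s | InRange R (g s)} := by
    ext y
    simp only [Set.mem_ofPred_eq, unpair_pairBits, InRange]
    constructor
    · rintro ⟨w, _, h⟩; exact ⟨w, h⟩
    · rintro ⟨w, h⟩
      refine ⟨w, ?_, h⟩
      rw [← h, G_length]; omega
  rw [e] at h
  exact h

/-! ### the two halves -/

/-- half of the length of the second component -/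
def hn (s : List Bool) : ℕ := 2 * (4 * ((unpair s).1.length + 1))

/-- first half -/
def g1 (s : List Bool) : List Bool := (List.range (hn s)).map fun i => ((unpair s).2[i]?).getD false

/-- second half -/
def g2 (s : List Bool) : List Bool :=
  (List.range (hn s)).map fun i => ((unpair s).2[hn s + i]?).getD false

theorem upoly_hn : UPoly hn :=
  UPoly.mul (UPoly.const 2) (UPoly.mul (UPoly.const 4)
    (UPoly.add (UPoly.length (Poly.fst poly_unpair)) (UPoly.const 1)))

theorem poly_g1 : Poly g1 := by
  refine NPC.Poly.map (F := fun (s : List Bool) (i : ℕ) => ((unpair s).2[i]?).getD false)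
    upoly_hn.range ?_
  exact Poly.optGetD (Poly.getElem? ((Poly.snd poly_unpair).comp (Poly.fst Poly.id))
    (Poly.snd Poly.id)) (NPC.Poly.const false)

theorem poly_g2 : Poly g2 := by
  refine NPC.Poly.map (F := fun (s : List Bool) (i : ℕ) => ((unpair s).2[hn s + i]?).getD false)
    upoly_hn.range ?_
  exact Poly.optGetD (Poly.getElem? ((Poly.snd poly_unpair).comp (Poly.fst Poly.id))
    (Poly.add (upoly_hn.toPoly.comp (Poly.fst Poly.id)) (Poly.snd Poly.id)))
    (NPC.Poly.const false)

theorem g1_eq {x u1 u2 : List Bool} (h1 : u1.length = 2 * mm x.length) :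
    g1 (pairBits x (u1 ++ u2)) = u1 := by
  unfold g1 hn
  rw [unpair_pairBits]
  apply List.ext_getElem
  · simp [h1, mm]
  · intro i h2 h3
    simp only [List.getElem_map, List.getElem_range]
    rw [List.getElem?_append_left h3, List.getElem?_eq_getElem h3, Option.getD_some]

theorem g2_eq {x u1 u2 : List Bool} (h1 : u1.length = 2 * mm x.length)
    (h2 : u2.length = 2 * mm x.length) : g2 (pairBits x (u1 ++ u2)) = u2 := by
  unfold g2 hn
  rw [unpair_pairBits]
  apply List.ext_getElem
  · simp [h2, mm]
  · intro i h3 h4
    simp only [List.getElem_map, List.getElem_range]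
    have h5 : 2 * (4 * (x.length + 1)) = u1.length := by rw [h1, mm]
    rw [h5, List.getElem?_append_right (Nat.le_add_right _ _), Nat.add_sub_cancel_left,
      List.getElem?_eq_getElem h4, Option.getD_some]

/-- the input has the right form -/
def wf (s : List Bool) : Bool :=
  decide (s = pairBits (unpair s).1 (g1 s ++ g2 s))

theorem poly_wf : Poly wf :=
  Poly.decide_eq Poly.id (poly_pairBits (Poly.fst poly_unpair) (Poly.append poly_g1 poly_g2))

theorem CB_eq (R : List Bool → Bool) (B : Set (List Bool)) : CB R B =
    {s | wf s = true} ∩ (({s | (unpair s).1 ∈ B} ∩ {s | InRange R (g1 s)}) ∪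
      {s | InRange R (g2 s)}) := by
  ext s
  simp only [CB, Set.mem_ofPred_eq, Set.mem_inter_iff, Set.mem_union, wf, decide_eq_true_eq]
  constructor
  · rintro ⟨x, u1, u2, rfl, h1, h2, h3⟩
    rw [g1_eq h1, g2_eq h1 h2, unpair_pairBits]
    exact ⟨rfl, h3⟩
  · rintro ⟨h1, h2⟩
    refine ⟨(unpair s).1, g1 s, g2 s, h1, ?_, ?_, h2⟩
    · simp [g1, hn, mm]
    · simp [g2, hn, mm]

/-- TASK PS -/
theorem taskPS : TaskPS := by
  intro R B hB
  rw [CB_eq]
  exact inter (dec R poly_wf) (union (inter (hB.precomp (Poly.fst poly_unpair))
    (inRange R poly_g1)) (inRange R poly_g2))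


end Pool.Agent.H910R3.ISO.PS
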