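import Pool.Agent.H910R3.ISO.Stmts

/-!
Task PS2 of the project H910-ISO.
-/

set_option autoImplicit false

namespace Pool.Agent.H910R3.ISO.PS2

open Pool.Agent.NPC Pool.Agent.H628R3.RO Pool.Agent.H622R2 Pool.Agent.H620R2.Gauge

theorem unpair_len (y : List Bool) : (unpair y).1.length ≤ y.length := by
  have key : ∀ (k : ℕ) (s : List Bool × List Bool × Bool),
      (ustep^[k] s).1.length ≤ s.1.length + k := by
    intro k
    induction k with
    | zero => intro s; simp
    | succ k ih =>
      intro s
      rw [Function.iterate_succ_apply]
      have h1 : (ustep s).1.length ≤ s.1.length + 1 := by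
        obtain ⟨a, l, b⟩ := s
        unfold ustep
        cases b with
        | true => simp
        | false =>
          match l with
          | [] => simp
          | true :: [] => simp
          | true :: c :: l' => simp
          | false :: l' => simp
      have := ih (ustep s)
      omega
  have := key y.length ([], y, false)
  unfold unpair
  simp only [List.length_reverse]
  simpa using this

theorem taskPS2 : TaskPS2 := by
  rintro R B ⟨M, p, hM⟩
  have hx : Poly (fun y => (unpair y).1) := Poly.fst poly_unpair
  have hw : Poly (fun y => (unpair y).2) := Poly.snd poly_unpair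
  have hxx : Poly (fun y => (unpair (unpair y).1).1) := hx.comp hx
  have hpb : Poly (fun y => pairBits (unpair (unpair y).1).1 (unpair y).2) :=
    poly_pairBits hxx hw
  have ha : Poly (fun y => M.act (pairBits (unpair (unpair y).1).1 (unpair y).2)) :=
    (poly_of_polyTime M.act_poly).comp hpb
  have hn : Poly (fun y => M.next (pairBits (unpair (unpair y).1).1 (unpair y).2)) :=
    (poly_of_polyTime M.next_poly).comp hpb
  let N : SAlg := ⟨fun y => M.act (pairBits (unpair (unpair y).1).1 (unpair y).2),
    polyTime_of_poly_list ha, fun y => M.next (pairBits (unpair (unpair y).1).1 (unpair y).2),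
    polyTime_of_poly_list hn⟩
  have hact : ∀ s m, N.act (pairBits s m) = M.act (pairBits (unpair s).1 m) := by
    intro s m
    show M.act (pairBits (unpair (unpair (pairBits s m)).1).1 (unpair (pairBits s m)).2) = _
    rw [unpair_pairBits]
  have hnext : ∀ s m, N.next (pairBits s m) = M.next (pairBits (unpair s).1 m) := by
    intro s m
    show M.next (pairBits (unpair (unpair (pairBits s m)).1).1 (unpair (pairBits s m)).2) = _
    rw [unpair_pairBits]
  have hR : ∀ s m, N.Reach R s m ↔ M.Reach R (unpair s).1 m := by
    intro s m
    constructor
    · intro h
      induction h with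
      | start => exact SAlg.Reach.start
      | step _ h ih =>
        rw [hact] at h
        rw [hnext]
        exact SAlg.Reach.step ih h
    · intro h
      induction h with
      | start => exact SAlg.Reach.start
      | @step m q _ h ih =>
        rw [← hact] at h
        rw [← hnext]
        exact SAlg.Reach.step ih h
  refine ⟨N, p, fun s => ?_⟩
  obtain ⟨h1, m, z, h2, h3, h4⟩ := hM (unpair s).1
  refine ⟨fun m hm => (h1 m ((hR s m).1 hm)).trans (eval_mono p (unpair_len s)), m, z,
    (hR s m).2 h2, ?_, h4⟩
  rw [hact]
  exact h3

end Pool.Agent.H910R3.ISO.PS2
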