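import Mathlib

set_option autoImplicit false

namespace Pool.Agent.H910R3.ISO.PlantA

open Finset

open Classical in
theorem plantA (W V U : Type) [Fintype W] [DecidableEq W] [Fintype V] [DecidableEq V]
  [Fintype U] (E : (W → V) → V → U → Prop) (K κ : ℕ)
  (hK : ∀ g v u, (univ.filter fun w : W =>
    ∃ v1, ¬ (E (Function.update g w v1) v u ↔ E g v u)).card ≤ K) :
  Fintype.card V * (univ.filter fun t : (W → V) × W × U => E t.1 (t.1 t.2.1) t.2.2 ∧
      (univ.filter fun q : V × U => E t.1 q.1 q.2).card ≤ κ).card ≤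
    Fintype.card (W → V) * (K * Fintype.card U * Fintype.card V + Fintype.card W * κ) := by
  classical
  set a : (W → V) → ℕ := fun g => (univ.filter fun q : V × U => E g q.1 q.2).card with ha
  set T : Finset ((W → V) × W × U) := univ.filter fun t : (W → V) × W × U =>
    E t.1 (t.1 t.2.1) t.2.2 ∧ a t.1 ≤ κ with hT
  let P : (W → V) → W → V → U → Prop := fun g w v u =>
    ∀ v1, (E (Function.update g w v1) v u ↔ E g v u)
  let Y1 : Finset ((W → V) × W × V × U) := univ.filter fun y => ¬ P y.1 y.2.1 y.2.2.1 y.2.2.2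
  let Y2 : Finset ((W → V) × W × V × U) := univ.filter fun y =>
    P y.1 y.2.1 y.2.2.1 y.2.2.2 ∧ E y.1 y.2.2.1 y.2.2.2 ∧
      a (Function.update y.1 y.2.1 y.2.2.1) ≤ κ
  have hY1 : Y1.card ≤ K * (Fintype.card (W → V) * (Fintype.card V * Fintype.card U)) := by
    have h := Finset.card_le_mul_card_image_of_maps_to (s := Y1)
      (t := (univ : Finset ((W → V) × V × U))) (f := fun y => (y.1, y.2.2.1, y.2.2.2))
      (fun _ _ => mem_univ _) K ?_
    · simpa [Finset.card_univ, Fintype.card_prod] using h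
    · rintro ⟨g, v, u⟩ -
      refine le_trans ?_ (hK g v u)
      refine Finset.card_le_card_of_injOn (fun y => y.2.1) ?_ ?_
      · rintro ⟨g', w, v', u'⟩ hy
        simp only [Y1, P, coe_filter, mem_filter, mem_univ, true_and, Set.mem_ofPred_eq,
          Prod.mk.injEq] at hy ⊢
        obtain ⟨h1, rfl, rfl, rfl⟩ := hy
        exact not_forall.1 h1
      · rintro ⟨g1, w1, v1, u1⟩ h1 ⟨g2, w2, v2, u2⟩ h2 h12
        simp only [coe_filter, mem_filter, Set.mem_ofPred_eq, Prod.mk.injEq] at h1 h2 h12 ⊢
        obtain ⟨-, rfl, rfl, rfl⟩ := h1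
        obtain ⟨-, rfl, rfl, rfl⟩ := h2
        exact ⟨rfl, h12, rfl, rfl⟩
  have hY2 : Y2.card ≤ κ * (Fintype.card (W → V) * Fintype.card W) := by
    have h := Finset.card_le_mul_card_image_of_maps_to (s := Y2)
      (t := (univ : Finset ((W → V) × W))) (f := fun y => (y.1, y.2.1))
      (fun _ _ => mem_univ _) κ ?_
    · simpa [Finset.card_univ, Fintype.card_prod] using h
    · rintro ⟨g, w⟩ -
      rcases Finset.eq_empty_or_nonempty (Y2.filter fun y => (y.1, y.2.1) = (g, w)) with he | hne
      · rw [he]; simp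
      · obtain ⟨⟨g0, w0, v0, u0⟩, h0⟩ := hne
        simp only [Y2, P, coe_filter, mem_filter, mem_univ, true_and,
          Prod.mk.injEq] at h0
        obtain ⟨⟨-, -, h03⟩, rfl, rfl⟩ := h0
        refine le_trans ?_ h03
        refine Finset.card_le_card_of_injOn (fun y => (y.2.2.1, y.2.2.2)) ?_ ?_
        · rintro ⟨g', w', v', u'⟩ hy
          simp only [Y2, P, coe_filter, mem_filter, mem_univ, true_and, Set.mem_ofPred_eq,
            Prod.mk.injEq] at hy ⊢
          obtain ⟨⟨h1, h2, -⟩, rfl, rfl⟩ := hy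
          exact (h1 v0).2 h2
        · rintro ⟨g1, w1, v1, u1⟩ h1 ⟨g2, w2, v2, u2⟩ h2 h12
          simp only [coe_filter, mem_filter, Set.mem_ofPred_eq, Prod.mk.injEq] at h1 h2 h12 ⊢
          obtain ⟨-, rfl, rfl⟩ := h1
          obtain ⟨-, rfl, rfl⟩ := h2
          exact ⟨rfl, rfl, h12.1, h12.2⟩
  have hinj : ((univ : Finset V) ×ˢ T).card ≤ (Y1 ∪ Y2).card := by
    refine Finset.card_le_card_of_injOn
      (fun x => (Function.update x.2.1 x.2.2.1 x.1, x.2.2.1, x.2.1 x.2.2.1, x.2.2.2)) ?_ ?_
    · rintro ⟨v0, g, w, u⟩ hx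
      simp only [hT, coe_product, coe_univ, coe_filter, mem_univ, true_and, Set.mem_prod,
        Set.mem_univ, Set.mem_ofPred_eq] at hx
      obtain ⟨hE, hak⟩ := hx
      simp only [coe_union, Set.mem_union, mem_coe, Y1, Y2, mem_filter, mem_univ, true_and]
      by_cases hP : P (Function.update g w v0) w (g w) u
      · right
        have h1 : Function.update (Function.update g w v0) w (g w) = g := by simp
        refine ⟨hP, ?_, ?_⟩
        · rw [← hP (g w), h1]; exact hE
        · rw [h1]; exact hak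
      · left; exact hP
    · rintro ⟨v1, g1, w1, u1⟩ h1 ⟨v2, g2, w2, u2⟩ h2 h12
      simp only [Prod.mk.injEq] at h12 ⊢
      obtain ⟨hg, rfl, hv, rfl⟩ := h12
      have e1 : v1 = v2 := by
        have := congrFun hg w1
        simpa using this
      have e2 : g1 = g2 := by
        funext w
        by_cases hw : w = w1
        · rw [hw]; exact hv
        · have := congrFun hg w
          simpa [Function.update_of_ne hw] using this
      exact ⟨e1, e2, rfl, rfl⟩
  rw [Finset.card_product, Finset.card_univ] at hinj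
  have hu := Finset.card_union_le Y1 Y2
  calc Fintype.card V * T.card ≤ Y1.card + Y2.card := le_trans hinj hu
    _ ≤ K * (Fintype.card (W → V) * (Fintype.card V * Fintype.card U)) +
        κ * (Fintype.card (W → V) * Fintype.card W) := Nat.add_le_add hY1 hY2
    _ = _ := by ring

end Pool.Agent.H910R3.ISO.PlantA
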