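import Pool.Agent.H910R3.ISO.Stmts
import Pool.Agent.H910R3.ISO.PlantAProof

set_option autoImplicit false

namespace Pool.Agent.H910R3.ISO.PlantA

theorem taskPlantA : TaskPlantA := by
  intro W V U _ _ _ _ _ E K κ hK
  exact plantA W V U E K κ hK

end Pool.Agent.H910R3.ISO.PlantA
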