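import Pool.Agent.H910R3.ISO.Stmts

set_option autoImplicit false

namespace Pool.Agent.H910R3.ISO.PlantB

open Finset

theorem fib {α β : Type} [Fintype α] [Fintype β] (p : α → β → Prop) (K : ℕ)
    [∀ a, DecidablePred (p a)] [DecidablePred fun q : α × β => p q.1 q.2]
    (h : ∀ a, (univ.filter fun b : β => p a b).card ≤ K) :
    (univ.filter fun q : α × β => p q.1 q.2).card ≤ Fintype.card α * K := by
  rw [Finset.card_filter, Fintype.sum_prod_type]
  have h1 : ∀ a : α, (∑ b : β, (if p (a, b).1 (a, b).2 then 1 else 0)) ≤ K := by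
    intro a
    refine le_trans (le_of_eq ?_) (h a)
    rw [Finset.card_filter]
    refine Finset.sum_congr rfl fun b _ => ?_
    by_cases hb : p a b <;> simp [hb]
  calc _ ≤ ∑ _a : α, K := Finset.sum_le_sum fun a _ => h1 a
    _ = Fintype.card α * K := by simp

open Classical in
theorem taskPlantB : TaskPlantB := by
  intro W V U _ _ _ _ _ E K hK
  set P : W → (W → V) → V → U → Prop :=
    fun w g v u => ∀ v1, (E (Function.update g w v1) v u ↔ E g v u) with hP
  have hK' : ∀ g v u, (univ.filter fun w : W => ¬ P w g v u).card ≤ K := by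
    intro g v u
    refine le_trans (le_of_eq ?_) (hK g v u)
    congr 1
    ext w
    simp [hP]
  set bad := (univ.filter fun t : (W → V) × V × U => E t.1 t.2.1 t.2.2 ∧
      ∀ w u, ¬ E t.1 (t.1 w) u) with hbad
  -- first part
  have h1 : (univ.filter fun q : ((W → V) × V × U) × W => ¬ P q.2 q.1.1 q.1.2.1 q.1.2.2).card ≤
      Fintype.card ((W → V) × V × U) * K :=
    fib (α := (W → V) × V × U) (β := W) (fun t w => ¬ P w t.1 t.2.1 t.2.2) K (fun t => hK' _ _ _)
  -- second part
  let Z : (W → V) → U → W → Prop := fun g u w => E g (g w) u ∧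
    ∀ w2, w2 ≠ w → ∀ u2, ¬ (P w g (g w2) u2 ∧ E g (g w2) u2)
  have hZ : ∀ g u, (univ.filter fun w : W => Z g u w).card ≤ K + 1 := by
    intro g u
    by_cases hne : ∃ w1, Z g u w1
    · obtain ⟨w1, hw1⟩ := hne
      have hsub : (univ.filter fun w : W => Z g u w) ⊆
          insert w1 (univ.filter fun w : W => ¬ P w g (g w1) u) := by
        intro w hw
        rw [mem_filter] at hw
        by_cases hww : w = w1
        · rw [hww]; exact mem_insert_self _ _
        · refine mem_insert_of_mem ?_
          rw [mem_filter]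
          refine ⟨mem_univ _, fun hPw => ?_⟩
          exact hw.2.2 w1 (fun h => hww h.symm) u ⟨hPw, hw1.1⟩
      exact (card_le_card hsub).trans ((card_insert_le _ _).trans (Nat.succ_le_succ (hK' _ _ _)))
    · have : (univ.filter fun w : W => Z g u w) = ∅ := by
        rw [filter_eq_empty_iff]
        intro w _ hw
        exact hne ⟨w, hw⟩
      rw [this]; simp
  have h2 : (univ.filter fun q : ((W → V) × U × V) × W => Z q.1.1 q.1.2.1 q.2).card ≤
      Fintype.card ((W → V) × U × V) * (K + 1) :=
    fib (α := (W → V) × U × V) (β := W) (fun t w => Z t.1 t.2.1 w) (K + 1) (fun t => hZ _ _)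
  -- the injection
  let φ : ((W → V) × V × U) × W → ((W → V) × U × V) × W := fun q =>
    ((Function.update q.1.1 q.2 q.1.2.1, q.1.2.2, q.1.1 q.2), q.2)
  have hφinj : Function.Injective φ := by
    rintro ⟨⟨g, v, u⟩, w⟩ ⟨⟨g', v', u'⟩, w'⟩ h
    simp only [φ, Prod.mk.injEq] at h
    obtain ⟨⟨hg, hu, hv⟩, hw⟩ := h
    subst hw hu
    have e1 : v = v' := by
      have := congrFun hg w
      simpa using this
    subst e1
    have e2 : g = g' := by
      funext x
      by_cases hx : x = w
      · rw [hx]; exact hv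
      · have := congrFun hg x
        simpa [Function.update_of_ne hx] using this
    subst e2
    rfl
  have h3 : ((bad ×ˢ (univ : Finset W)).filter fun q => P q.2 q.1.1 q.1.2.1 q.1.2.2).card ≤
      Fintype.card ((W → V) × U × V) * (K + 1) := by
    refine le_trans (Finset.card_le_card_of_injOn φ ?_ hφinj.injOn) h2
    rintro ⟨⟨g, v, u⟩, w⟩ hq
    rw [Finset.mem_coe, mem_filter, mem_product] at hq
    obtain ⟨⟨hb, -⟩, hPq⟩ := hq
    rw [hbad, mem_filter] at hb
    obtain ⟨-, hE, hnE⟩ := hb
    simp only at hE hnE hPq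
    rw [Finset.mem_coe, mem_filter]
    refine ⟨mem_univ _, ?_, ?_⟩
    · simp only [φ, Function.update_self]
      exact (hPq v).2 hE
    · intro w2 hw2 u2 hh
      simp only [φ] at hh hw2
      rw [Function.update_of_ne hw2] at hh
      have h4 := (hh.1 (g w)).2 hh.2
      rw [Function.update_idem, Function.update_eq_self] at h4
      exact hnE w2 u2 h4
  have h4 : ((bad ×ˢ (univ : Finset W)).filter fun q => ¬ P q.2 q.1.1 q.1.2.1 q.1.2.2).card ≤
      Fintype.card ((W → V) × V × U) * K := by
    refine le_trans (card_le_card ?_) h1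
    intro q hq
    rw [mem_filter] at hq
    rw [mem_filter]
    exact ⟨mem_univ _, hq.2⟩
  have h5 : (bad ×ˢ (univ : Finset W)).card =
      ((bad ×ˢ (univ : Finset W)).filter fun q => P q.2 q.1.1 q.1.2.1 q.1.2.2).card +
      ((bad ×ˢ (univ : Finset W)).filter fun q => ¬ P q.2 q.1.1 q.1.2.1 q.1.2.2).card :=
    (Finset.card_filter_add_card_filter_not _).symm
  have h6 : Fintype.card W * bad.card ≤ Fintype.card ((W → V) × U × V) * (K + 1) +
      Fintype.card ((W → V) × V × U) * K := by
    rw [card_product, Finset.card_univ] at h5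
    rw [mul_comm, h5]
    exact add_le_add h3 h4
  refine h6.trans (le_of_eq ?_)
  simp only [Fintype.card_prod]
  ring

end Pool.Agent.H910R3.ISO.PlantB
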