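import Pool.Agent.H910R3.ISO.Stmts

/-!
# The hidden random string is unlikely to be in the range
-/

set_option autoImplicit false

namespace Pool.Agent.H910R3.ISO.Range

open MeasureTheory Pool.Agent.NPC Pool.Agent.H628R3.RO

theorem length_pairBits (x w : List Bool) :
    (pairBits x w).length = 2 * x.length + 1 + w.length := by
  have h : (x.flatMap (fun b => [true, b])).length = 2 * x.length := by
    induction x with
    | nil => rfl
    | cons a x ih =>
      rw [List.flatMap_cons, List.length_append, ih]
      simp only [List.length_cons, List.length_nil]
      omega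
  simp only [pairBits, List.length_append, List.length_cons, h]
  omega

theorem length_hid (p : Polynomial ℕ) (x : List Bool) (i : ℕ) :
    (hid p x i).length = 2 * x.length + 1 + (i + 1 + p.eval x.length) := by
  unfold hid
  rw [length_pairBits]
  simp only [List.length_append, List.length_cons, List.length_replicate]
  omega

theorem hid_inj (p : Polynomial ℕ) (x : List Bool) : Function.Injective (hid p x) := by
  intro i j h
  have h' := congrArg List.length h
  rw [length_hid, length_hid] at h'
  omega

theorem length_loc (w : List Bool) (j : ℕ) : (loc w j).length = w.length + (j + 1) := by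
  simp only [loc, List.length_append, List.length_replicate, List.length_cons, List.length_nil]

theorem ovr_pos {ι : Type} (pos : ι → List Bool) (hp : Function.Injective pos) (b : ι → Bool)
    (r : Oracle) (i : ι) : ovr pos b r (pos i) = b i := by
  classical
  have h : ∃ j, pos j = pos i := ⟨i, rfl⟩
  unfold ovr
  rw [dif_pos h]
  congr 1
  exact hp h.choose_spec

theorem ovr_of_not {ι : Type} (pos : ι → List Bool) (b : ι → Bool) (r : Oracle) (q : List Bool)
    (h : ∀ i, pos i ≠ q) : ovr pos b r q = r q := by
  classical
  have h' : ¬ ∃ j, pos j = q := by
    rintro ⟨j, hj⟩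
    exact h j hj
  unfold ovr
  rw [dif_neg h']

theorem mem_iff (p : Polynomial ℕ) (x : List Bool) (R : Oracle) :
    InRange R (vx p R x) ↔ ∃ f : Fin (mm x.length) → Bool, ∀ i : ℕ, i < 2 * mm x.length →
      R (loc (List.ofFn f) i) = R (hid p x (mm x.length + i)) := by
  constructor
  · rintro ⟨w, hw⟩
    have hlen : w.length = mm x.length := by
      have h := congrArg List.length hw
      simp only [G, vx, hb, List.length_map, List.length_range] at h
      omega
    refine ⟨fun i => w[i.1]'(by rw [hlen]; exact i.2), fun i hi => ?_⟩
    have hof : List.ofFn (fun i : Fin (mm x.length) => w[i.1]'(by rw [hlen]; exact i.2)) = w := by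
      apply List.ext_getElem
      · simp [hlen]
      · intro k h1 h2
        simp
    rw [hof]
    simp only [G, vx, hb, hlen] at hw
    exact List.map_inj_left.mp hw i (List.mem_range.mpr hi)
  · rintro ⟨f, hf⟩
    refine ⟨List.ofFn f, ?_⟩
    simp only [G, vx, hb, List.length_ofFn]
    apply List.map_congr_left
    intro i hi
    exact hf i (List.mem_range.mp hi)

theorem taskRange : TaskAvg → TaskRange := by
  classical
  intro hAvg p x hpx
  set m := mm x.length with hm
  set L := 2 * x.length + 1 + (3 * m + 1 + p.eval x.length) with hL
  have hmeas : MeasurableSet {R : Oracle | InRange R (vx p R x)} := by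
    refine measurableSet_of_loc (K := {q : List Bool | q.length ≤ L})
      (List.finite_length_le Bool L) ?_
    intro A A' hAA
    simp only [Set.mem_ofPred_eq] at hAA ⊢
    rw [mem_iff, mem_iff]
    refine exists_congr fun f => forall₂_congr fun i hi => ?_
    rw [hAA _ (by rw [length_loc, List.length_ofFn]; omega), hAA _ (by rw [length_hid]; omega)]
  refine hAvg (Fin (2 * m)) (fun i => hid p x (m + i)) ?_ _ hmeas _ ?_
  · intro i j hij
    have := hid_inj p x hij
    exact Fin.ext (by omega)
  · intro r
    have hinj : Function.Injective (fun i : Fin (2 * m) => hid p x (m + i)) := by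
      intro i j hij
      have := hid_inj p x hij
      exact Fin.ext (by omega)
    have hsub : (Finset.univ.filter fun b : Fin (2 * m) → Bool =>
        ovr (fun i : Fin (2 * m) => hid p x (m + i)) b r ∈
          {R : Oracle | InRange R (vx p R x)}) ⊆
        Finset.univ.image (fun (f : Fin m → Bool) (i : Fin (2 * m)) =>
          r (loc (List.ofFn f) i)) := by
      intro b hb
      simp only [Finset.mem_filter, Finset.mem_univ, true_and, Set.mem_ofPred_eq] at hb
      rw [mem_iff] at hb
      obtain ⟨f, hf⟩ := hb
      rw [Finset.mem_image]
      refine ⟨f, Finset.mem_univ _, ?_⟩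
      funext i
      have h1 := hf i.1 i.2
      have h2 := ovr_pos (fun i : Fin (2 * m) => hid p x (m + i)) hinj b r i
      have h3 := ovr_of_not (fun i : Fin (2 * m) => hid p x (m + i)) b r
        (loc (List.ofFn f) i) (by
          intro j hj
          have h := congrArg List.length hj
          simp only [length_hid, length_loc, List.length_ofFn] at h
          have := i.2
          omega)
      rw [← h3, ← h2]
      exact h1
    have hcard : (Finset.univ.filter fun b : Fin (2 * m) → Bool =>
        ovr (fun i : Fin (2 * m) => hid p x (m + i)) b r ∈
          {R : Oracle | InRange R (vx p R x)}).card ≤ 2 ^ m := by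
      refine (Finset.card_le_card hsub).trans (Finset.card_image_le.trans ?_)
      rw [Finset.card_univ, Fintype.card_fun, Fintype.card_bool, Fintype.card_fin]
    have hreal : (((Finset.univ.filter fun b : Fin (2 * m) → Bool =>
        ovr (fun i : Fin (2 * m) => hid p x (m + i)) b r ∈
          {R : Oracle | InRange R (vx p R x)}).card : ℕ) : ℝ) ≤ 2 ^ m := by
      exact_mod_cast hcard
    refine le_trans (le_of_eq ?_) (hreal.trans (le_of_eq ?_))
    · congr 2
      ext b
      simp only [Finset.mem_filter, Finset.mem_univ, true_and]
    · rw [Fintype.card_fin, pow_mul', sq]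
      field_simp

end Pool.Agent.H910R3.ISO.Range

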