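import Pool.Agent.H910R3.ISO.Red
import Pool.Agent.H910R3.ISO.PlantA
import Pool.Agent.H910R3.ISO.PlantB
import Pool.Agent.H910R3.ISO.Avg2
import Pool.Agent.H910R3.ISO.CollA2
import Pool.Agent.H910R3.ISO.CollB2
import Pool.Agent.H910R3.ISO.Range
import Pool.Agent.H910R3.ISO.LocF
import Pool.Agent.H910R3.ISO.FP
import Pool.Agent.H910R3.ISO.NP
import Pool.Agent.H910R3.ISO.PS
import Pool.Agent.H910R3.ISO.PS2

/-!
# One-one reductions relative to a random oracle: the final theorem
-/

set_option autoImplicit false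

namespace Pool.Agent.H910R3.ISO

open MeasureTheory Pool.Agent.NPC Pool.Agent.H628R3.RO

theorem tasks : Tasks :=
  ⟨CollA2.taskCollA PlantA.taskPlantA Avg2.taskAvg, CollB2.taskCollB PlantB.taskPlantB Avg2.taskAvg,
    Range.taskRange Avg2.taskAvg, LocF.taskLocF⟩

/-- Relative to a random oracle all sets hard for `NP` (or for `PSPACE`) under many-one reductions
are hard under one-one, length-increasing reductions. -/
theorem final : ∀ᵐ R ∂randomOracle,
    (∀ A : Set (List Bool), NPHardRel R A → ∀ B, IsNP R B → OneLi R B A) ∧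
    (∀ A : Set (List Bool), (∀ B, Pool.Agent.H620R2.Gauge.IsPSPACE R B → Red R B A) →
      ∀ B, Pool.Agent.H620R2.Gauge.IsPSPACE R B → OneLi R B A) := by
  filter_upwards [final_np tasks FP.taskFP NP.taskNP,
    final_ps tasks FP.taskFP PS.taskPS PS2.taskPS2] with R h1 h2
  exact ⟨h1, h2⟩

end Pool.Agent.H910R3.ISO
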