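import Pool.Agent.H910R3.ISO.NP
import Pool.Agent.H910R3.ISO.Fin

set_option autoImplicit false

/-!
# One-one reductions relative to a random oracle: `RE` and `NEXP`

An adaptation of the file `NP` (by helper191).
-/

namespace Pool.Agent.H910R3.ISO.WB

open Pool.Agent.NPC Pool.Agent.H622R2 Pool.Agent.H628R3.RO Pool.Agent.H910R3.ISO Pool.Agent.H910R3.ISO.NP

/-- Languages with certificates of a length bounded by the relation `W` (between the lengths of the
input and of the certificate). -/
def IsW (W : ℕ → ℕ → Prop) (R : Oracle) (L : Set (List Bool)) : Prop :=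
  ∃ V : List Bool → List Bool, IsFP R V ∧
    ∀ x, x ∈ L ↔ ∃ w : List Bool, W x.length w.length ∧ V (pairBits x w) = [true]

/-- the final check -/
def chk (P : ℕ → ℕ → Bool) (t : List Bool × List Bool × List Bool) : Bool :=
  decide ((unpair t.1).1 = pairBits (sx t.1) (su t.1)) &&
  (decide ((su t.1).length = 4 * mm (sx t.1).length) &&
  ((decide ((unpair t.1).2.head? = some false) &&
      decide (t.2.1 = hs (su t.1) (2 * mm (sx t.1).length))) ||
    (decide ((unpair t.1).2.head? = some true) &&
      (decide (t.2.1 = hf (su t.1) (2 * mm (sx t.1).length)) &&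
        (P (sx t.1).length (wB t.1).length && decide (t.2.2 = [true]))))))

theorem poly_chk (P : ℕ → ℕ → Bool)
    (hP : Poly (fun t : List Bool × List Bool => P t.1.length t.2.length)) : Poly (chk P) := by
  have hy : Poly (fun t : List Bool × List Bool × List Bool => t.1) := Poly.fst Poly.id
  have hg : Poly (fun t : List Bool × List Bool × List Bool => t.2.1) :=
    Poly.fst (Poly.snd Poly.id)
  have hv : Poly (fun t : List Bool × List Bool × List Bool => t.2.2) :=
    Poly.snd (Poly.snd Poly.id)
  have hx : Poly (fun t : List Bool × List Bool × List Bool => sx t.1) := poly_sx.comp hy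
  have hu : Poly (fun t : List Bool × List Bool × List Bool => su t.1) := poly_su.comp hy
  have hm2 : UPoly (fun y => 2 * mm (sx y).length) := UPoly.mul (UPoly.const 2) upoly_mm
  have hm4 : UPoly (fun y => 4 * mm (sx y).length) := UPoly.mul (UPoly.const 4) upoly_mm
  have hm2' : UPoly (fun t : List Bool × List Bool × List Bool => 2 * mm (sx t.1).length) :=
    hm2.comp hy
  have hhs : Poly (fun t : List Bool × List Bool × List Bool =>
      hs (su t.1) (2 * mm (sx t.1).length)) := by
    unfold hs
    refine NPC.Poly.map (F := fun (t : List Bool × List Bool × List Bool) i =>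
      (su t.1).getD (2 * mm (sx t.1).length + i) false) hm2'.range ?_
    exact Poly.getD (poly_su.comp (Poly.fst (Poly.fst Poly.id)))
      (Poly.add ((hm2.comp (Poly.fst (Poly.fst Poly.id))).toPoly) (Poly.snd Poly.id))
      (NPC.Poly.const false)
  have hhf : Poly (fun t : List Bool × List Bool × List Bool =>
      hf (su t.1) (2 * mm (sx t.1).length)) := by
    unfold hf
    refine NPC.Poly.map (F := fun (t : List Bool × List Bool × List Bool) i =>
      (su t.1).getD i false) hm2'.range ?_
    exact Poly.getD (poly_su.comp (Poly.fst (Poly.fst Poly.id))) (Poly.snd Poly.id)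
      (NPC.Poly.const false)
  have h2 : Poly (fun t : List Bool × List Bool × List Bool => (unpair t.1).2) :=
    (Poly.snd poly_unpair).comp hy
  unfold chk
  refine Poly.and (Poly.decide_eq ((Poly.fst poly_unpair).comp hy) (poly_pairBits hx hu))
    (Poly.and (Poly.decide_eq (Poly.length hu) ((hm4.comp hy).toPoly))
    (Poly.or (Poly.and (Poly.decide_eq (Poly.head? h2) (NPC.Poly.const _))
      (Poly.decide_eq hg hhs)) (Poly.and (Poly.decide_eq (Poly.head? h2) (NPC.Poly.const _))
        (Poly.and (Poly.decide_eq hg hhf) (Poly.and ?_ (Poly.decide_eq hv (NPC.Poly.const _)))))))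
  exact hP.comp (Poly.pair hx (poly_wB.comp hy))

theorem isW_CB (P P' : ℕ → ℕ → Bool)
    (hP : Poly (fun t : List Bool × List Bool => P t.1.length t.2.length))
    (h01 : ∀ n n' m, n ≤ n' → P n m = true → P' n' (2 * mm n + 2 + m) = true)
    (h02 : ∀ n n', n ≤ n' → P' n' (mm n + 1) = true)
    (R : Oracle) (B : Set (List Bool)) (hB : IsW (fun n m => P n m = true) R B) :
    IsW (fun n m => P' n m = true) R (CB R B) := by
  obtain ⟨V, hV, hVB⟩ := hB
  let φ : List Bool × List Bool → List Bool := fun t => pairBits (sx t.1) (wB t.1)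
  let ψ : List Bool × List Bool × List Bool → List Bool := fun t => [chk P t]
  have hφ : Poly φ := poly_pairBits (poly_sx.comp (Poly.fst Poly.id))
    (poly_wB.comp (Poly.fst Poly.id))
  have hψ : Poly ψ := Poly.cons (poly_chk P hP) (NPC.Poly.const [])
  have hfp := IsFP.seq (isFP_G R) hV hφ hψ
  refine ⟨_, hfp, fun s => ?_⟩
  have hval : ∀ w : List Bool, ((ψ (pairBits s w, G R (wy (pairBits s w)),
      V (φ (pairBits s w, G R (wy (pairBits s w)))))) = [true]) ↔
      (s = pairBits (unpair s).1 (unpair s).2 ∧
        (unpair s).2.length = 4 * mm (unpair s).1.length ∧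
        ((w.head? = some false ∧ G R (ws w) = hs (unpair s).2 (2 * mm (unpair s).1.length)) ∨
        (w.head? = some true ∧ G R (ws w) = hf (unpair s).2 (2 * mm (unpair s).1.length) ∧
          P (unpair s).1.length (unpair w.tail).2.length = true ∧
          V (pairBits (unpair s).1 (unpair w.tail).2) = [true]))) := by
    intro w
    simp only [ψ, φ, chk, wy, sx, su, wB, unpair_pairBits, List.cons.injEq, and_true,
      Bool.and_eq_true, Bool.or_eq_true, decide_eq_true_eq]
  have hGlen : ∀ w : List Bool, (G R w).length = 2 * w.length := by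
    intro w; simp [G]
  constructor
  · rintro ⟨x, u1, u2, rfl, h1, h2, h3⟩
    have hlen : (pairBits x (u1 ++ u2)).length = 2 * x.length + 1 + (u1 ++ u2).length :=
      length_pairBits x (u1 ++ u2)
    have hxl : x.length ≤ (pairBits x (u1 ++ u2)).length := by omega
    rcases h3 with ⟨hxB, w1, hw1⟩ | ⟨w2, hw2⟩
    · obtain ⟨wb, hwb1, hwb2⟩ := (hVB x).1 hxB
      refine ⟨true :: pairBits w1 wb, ?_, ?_⟩
      · have h4 : 2 * w1.length = 2 * mm x.length := by rw [← hGlen, hw1, h1]
        have h5 : (pairBits w1 wb).length = 2 * w1.length + 1 + wb.length :=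
          length_pairBits w1 wb
        have h6 := h01 _ _ _ hxl hwb1
        have h7 : (true :: pairBits w1 wb).length = 2 * mm x.length + 2 + wb.length := by
          rw [List.length_cons, h5]
          omega
        rw [h7]
        exact h6
      · rw [hval]
        simp only [unpair_pairBits]
        refine ⟨trivial, by rw [List.length_append, h1, h2]; ring, Or.inr ⟨rfl, ?_, ?_, ?_⟩⟩
        · rw [hf_append u1 u2 _ h1]
          simp only [ws, List.head?_cons, List.tail_cons, unpair_pairBits]
          simpa using hw1
        · simpa only [List.tail_cons, unpair_pairBits] using hwb1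
        · simpa only [List.tail_cons, unpair_pairBits] using hwb2
    · refine ⟨false :: w2, ?_, ?_⟩
      · have h4 : 2 * w2.length = 2 * mm x.length := by rw [← hGlen, hw2, h2]
        have h7 : (false :: w2).length = mm x.length + 1 := by
          rw [List.length_cons]
          omega
        rw [h7]
        exact h02 _ _ hxl
      · rw [hval]
        simp only [unpair_pairBits]
        refine ⟨trivial, by rw [List.length_append, h1, h2]; ring, Or.inl ⟨rfl, ?_⟩⟩
        rw [hs_append u1 u2 _ h1 h2]
        simpa [ws] using hw2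
  · rintro ⟨w, _, hw⟩
    rw [hval] at hw
    obtain ⟨h1, h2, h3⟩ := hw
    generalize unpair s = xu at h1 h2 h3
    obtain ⟨x, u⟩ := xu
    simp only at h1 h2 h3
    have h4 : (u.take (2 * mm x.length)).length = 2 * mm x.length := by
      rw [List.length_take]; omega
    have h5 : (u.drop (2 * mm x.length)).length = 2 * mm x.length := by
      rw [List.length_drop]; omega
    have h6 : u.take (2 * mm x.length) ++ u.drop (2 * mm x.length) = u := List.take_append_drop _ _
    refine ⟨x, u.take (2 * mm x.length), u.drop (2 * mm x.length), by rw [h6]; exact h1, h4, h5, ?_⟩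
    rcases h3 with ⟨_, h7⟩ | ⟨_, h7, h8, h9⟩
    · right
      refine ⟨ws w, h7.trans ?_⟩
      conv_lhs => rw [← h6]
      exact hs_append _ _ _ h4 h5
    · left
      refine ⟨(hVB x).2 ⟨_, h8, h9⟩, ws w, h7.trans ?_⟩
      conv_lhs => rw [← h6]
      exact hf_append _ _ _ h4

theorem isW_fst (P P' : ℕ → ℕ → Bool)
    (hP : Poly (fun t : List Bool × List Bool => P t.1.length t.2.length))
    (h01 : ∀ n n' m, n ≤ n' → P n m = true → P' n' m = true)
    (R : Oracle) (B : Set (List Bool)) (hB : IsW (fun n m => P n m = true) R B) :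
    IsW (fun n m => P' n m = true) R {s | (unpair s).1 ∈ B} := by
  obtain ⟨V, hV, hVB⟩ := hB
  let φ : List Bool × List Bool → List Bool := fun t => pairBits (sx t.1) (unpair t.1).2
  let ψ : List Bool × List Bool × List Bool → List Bool := fun t =>
    [P (sx t.1).length (unpair t.1).2.length && decide (t.2.2 = [true])]
  have hy : Poly (fun t : List Bool × List Bool × List Bool => t.1) := Poly.fst Poly.id
  have hφ : Poly φ := poly_pairBits (poly_sx.comp (Poly.fst Poly.id))
    ((Poly.snd poly_unpair).comp (Poly.fst Poly.id))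
  have hψ : Poly ψ := by
    refine Poly.cons (Poly.and ?_
      (Poly.decide_eq (Poly.snd (Poly.snd Poly.id)) (NPC.Poly.const _))) (NPC.Poly.const [])
    exact hP.comp (Poly.pair (poly_sx.comp hy) ((Poly.snd poly_unpair).comp hy))
  have hfp := IsFP.seq (isFP_G R) hV hφ hψ
  refine ⟨_, hfp, fun s => ?_⟩
  have hval : ∀ w : List Bool, ((ψ (pairBits s w, G R (wy (pairBits s w)),
      V (φ (pairBits s w, G R (wy (pairBits s w)))))) = [true]) ↔
      (P (unpair s).1.length w.length = true ∧ V (pairBits (unpair s).1 w) = [true]) := by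
    intro w
    simp only [ψ, φ, sx, unpair_pairBits, List.cons.injEq, and_true,
      Bool.and_eq_true, decide_eq_true_eq]
  show (unpair s).1 ∈ B ↔ _
  rw [hVB]
  constructor
  · rintro ⟨w, h1, h2⟩
    exact ⟨w, h01 _ _ _ (length_unpair_fst s) h1, (hval w).2 ⟨h1, h2⟩⟩
  · rintro ⟨w, _, h2⟩
    exact ⟨w, (hval w).1 h2⟩


end Pool.Agent.H910R3.ISO.WB
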