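import Pool.Agent.H910R3.ISO.REDefs
import Pool.Agent.H910R3.ISO.WB

/-!
# One-one reductions relative to a random oracle: `RE` and `NEXP`
-/

set_option autoImplicit false

namespace Pool.Agent.H910R3.ISO

open MeasureTheory Pool.Agent.NPC Pool.Agent.H622R2 Pool.Agent.H628R3.RO

theorem poly_natBits : Poly (fun n : ℕ => Nat.bits n) :=
  ⟨Cmd.skip, 1, fun a => (Runs.skip _).mono (by simp)⟩

/-- no condition -/
def PT (_ _ : ℕ) : Bool := true

/-- the condition `m ≤ 2 ^ p n` -/
def PE (p : Polynomial ℕ) (n m : ℕ) : Bool := decide ((Nat.bits (m - 1)).length ≤ p.eval n)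

theorem PE_iff (p : Polynomial ℕ) (n m : ℕ) : PE p n m = true ↔ m ≤ 2 ^ p.eval n := by
  unfold PE
  rw [decide_eq_true_iff, Nat.size_eq_bits_len, Nat.size_le]
  have : 0 < 2 ^ p.eval n := by positivity
  omega

theorem poly_PE (p : Polynomial ℕ) :
    Poly (fun t : List Bool × List Bool => PE p t.1.length t.2.length) := by
  have h1 : Poly (fun t : List Bool × List Bool => (Nat.bits (t.2.tail.length)).length) :=
    Poly.length (poly_natBits.comp (Poly.length (Poly.tail (Poly.snd Poly.id))))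
  have h2 : Poly (fun t : List Bool × List Bool => p.eval t.1.length) :=
    (((UPoly.length (Poly.fst Poly.id)).eval p)).toPoly
  refine (Poly.decide_le h1 h2).congr fun t => ?_
  unfold PE
  rw [List.length_tail]

theorem isRE_iff (R : Oracle) (L : Set (List Bool)) :
    IsRE R L ↔ WB.IsW (fun n m => PT n m = true) R L := by
  unfold IsRE WB.IsW PT
  simp

theorem isNEXP_iff (R : Oracle) (L : Set (List Bool)) :
    IsNEXP R L ↔ ∃ p : Polynomial ℕ, WB.IsW (fun n m => PE p n m = true) R L := by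
  constructor
  · rintro ⟨V, p, hV, h⟩
    refine ⟨p, V, hV, fun x => ?_⟩
    rw [h x]
    exact exists_congr fun w => and_congr_left' (PE_iff p _ _).symm
  · rintro ⟨p, V, hV, h⟩
    refine ⟨V, p, hV, fun x => ?_⟩
    rw [h x]
    exact exists_congr fun w => and_congr_left' (PE_iff p _ _)

theorem isRE_closed (R : Oracle) (B : Set (List Bool)) (hB : IsRE R B) :
    IsRE R (CB R {s | (unpair s).1 ∈ B}) := by
  rw [isRE_iff] at hB ⊢
  have hP : Poly (fun t : List Bool × List Bool => PT t.1.length t.2.length) := NPC.Poly.const true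
  exact WB.isW_CB PT PT hP (fun _ _ _ _ _ => rfl) (fun _ _ _ => rfl) R _
    (WB.isW_fst PT PT hP (fun _ _ _ _ _ => rfl) R B hB)

theorem two_pow_add {a b : ℕ} : 2 ^ a + b ≤ 2 ^ (a + b) := by
  have h1 : b < 2 ^ b := Nat.lt_two_pow_self
  have h2 : 1 ≤ 2 ^ a := Nat.one_le_two_pow
  rw [pow_add]
  nlinarith

theorem isNEXP_closed (R : Oracle) (B : Set (List Bool)) (hB : IsNEXP R B) :
    IsNEXP R (CB R {s | (unpair s).1 ∈ B}) := by
  rw [isNEXP_iff] at hB ⊢
  obtain ⟨p, hB⟩ := hB
  refine ⟨p + (Polynomial.C 8 * Polynomial.X + Polynomial.C 10), WB.isW_CB (PE p) _ (poly_PE p) ?_ ?_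
    R _ (WB.isW_fst (PE p) (PE p) (poly_PE p) ?_ R B hB)⟩
  · intro n n' m hn h
    rw [PE_iff] at h ⊢
    have h1 := eval_mono p hn
    have h2 : 2 ^ p.eval n ≤ 2 ^ p.eval n' := Nat.pow_le_pow_right (by norm_num) h1
    have h3 := two_pow_add (a := p.eval n') (b := 8 * n' + 10)
    have h4 : (p + (Polynomial.C 8 * Polynomial.X + Polynomial.C 10)).eval n' =
        p.eval n' + (8 * n' + 10) := by simp
    rw [h4]
    unfold mm
    omega
  · intro n n' hn
    rw [PE_iff]
    have h0 : 1 ≤ 2 ^ p.eval n' := Nat.one_le_two_pow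
    have h3 := two_pow_add (a := p.eval n') (b := 8 * n' + 10)
    have h4 : (p + (Polynomial.C 8 * Polynomial.X + Polynomial.C 10)).eval n' =
        p.eval n' + (8 * n' + 10) := by simp
    rw [h4]
    unfold mm
    omega
  · intro n n' m hn h
    rw [PE_iff] at h ⊢
    have h1 := eval_mono p hn
    have h2 : 2 ^ p.eval n ≤ 2 ^ p.eval n' := Nat.pow_le_pow_right (by norm_num) h1
    omega

theorem final_re : ∀ᵐ R ∂randomOracle,
    (∀ A : Set (List Bool), (∀ B, IsRE R B → Red R B A) → ∀ B, IsRE R B → OneLi R B A) ∧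
    (∀ A : Set (List Bool), (∀ B, IsNEXP R B → Red R B A) → ∀ B, IsNEXP R B → OneLi R B A) := by
  filter_upwards [oneLi tasks FP.taskFP] with R hR
  exact ⟨fun A hA B hB => hR A B (hA _ (isRE_closed R B hB)),
    fun A hA B hB => hR A B (hA _ (isNEXP_closed R B hB))⟩

end Pool.Agent.H910R3.ISO
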