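import Pool.Agent.H628R3.RO.Defs

/-!
# `RE` and `NEXP` relative to an oracle
-/

set_option autoImplicit false

namespace Pool.Agent.H910R3.ISO

open Pool.Agent.NPC Pool.Agent.H628R3.RO

/-- `L` is recursively enumerable relative to `R`: membership is witnessed by certificates (of
arbitrary length) that can be checked in polynomial time (in the lengths of the input and the
certificate) relative to `R`. -/
def IsRE (R : Oracle) (L : Set (List Bool)) : Prop :=
  ∃ V : List Bool → List Bool, IsFP R V ∧
    ∀ x, x ∈ L ↔ ∃ w : List Bool, V (pairBits x w) = [true]

/-- `L` is in `NEXP` relative to `R`: membership is witnessed by certificates of length at most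
`2 ^ p(|x|)`, for a polynomial `p`, that can be checked in polynomial time (in the lengths of the
input and the certificate) relative to `R`. -/
def IsNEXP (R : Oracle) (L : Set (List Bool)) : Prop :=
  ∃ (V : List Bool → List Bool) (p : Polynomial ℕ), IsFP R V ∧
    ∀ x, x ∈ L ↔ ∃ w : List Bool, w.length ≤ 2 ^ p.eval x.length ∧ V (pairBits x w) = [true]

end Pool.Agent.H910R3.ISO
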