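import Pool.Agent.H910R3.ISO.BC

set_option autoImplicit false

namespace Pool.Agent.H910R3.ISO

open MeasureTheory Pool.Agent.NPC Pool.Agent.H628R3.RO

theorem pairBits_inj {x y u v : List Bool} (h : pairBits x u = pairBits y v) : x = y ∧ u = v := by
  have h1 := congrArg unpair h
  rw [unpair_pairBits, unpair_pairBits] at h1
  exact Prod.ext_iff.1 h1

theorem length_G (R : Oracle) (w : List Bool) : (G R w).length = 2 * w.length := by
  simp [G]

theorem length_hb (p : Polynomial ℕ) (R : Oracle) (x : List Bool) (a k : ℕ) :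
    (hb p R x a k).length = k := by
  simp [hb]

theorem mem_CB (R : Oracle) (B : Set (List Bool)) (x u1 u2 : List Bool)
    (h1 : u1.length = 2 * mm x.length) (h2 : u2.length = 2 * mm x.length) :
    pairBits x (u1 ++ u2) ∈ CB R B ↔ (x ∈ B ∧ InRange R u1) ∨ InRange R u2 := by
  constructor
  · rintro ⟨x', v1, v2, he, h3, h4, h5⟩
    obtain ⟨rfl, h6⟩ := pairBits_inj he
    have h7 := List.append_inj h6 (by omega)
    rw [h7.1, h7.2]
    exact h5
  · intro h
    exact ⟨x, u1, u2, rfl, h1, h2, h⟩

theorem inst_mem (R : Oracle) (p : Polynomial ℕ) (B : Set (List Bool)) (x : List Bool)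
    (h : ¬ InRange R (vx p R x)) : inst p R x ∈ CB R B ↔ x ∈ B := by
  unfold inst
  rw [mem_CB R B x _ _ (by rw [length_G, wx, length_hb]) (by rw [vx, length_hb])]
  constructor
  · rintro (h1 | h1)
    · exact h1.1
    · exact absurd h1 h
  · intro h1
    exact Or.inl ⟨h1, wx p R x, rfl⟩

/-- The general theorem. -/
theorem oneLi (T : Tasks) (hFP : TaskFP) : ∀ᵐ R ∂randomOracle, ∀ A B : Set (List Bool),
    Red R (CB R {s | (unpair s).1 ∈ B}) A → OneLi R B A := by
  have hc : Countable Alg := inferInstance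
  have hall : ∀ᵐ R ∂randomOracle, ∀ M : Alg, ∀ᶠ n in Filter.atTop, R ∉ Bad M n :=
    ae_all_iff.2 (ae_bad T)
  filter_upwards [hall] with R hR A B hred
  obtain ⟨F, hF, hFA⟩ := hred
  have hF' := hF
  obtain ⟨M, hM⟩ := hF'
  obtain ⟨n0, hn0⟩ := Filter.eventually_atTop.1 (hR M)
  set B' : Set (List Bool) := {s | (unpair s).1 ∈ B} with hB'
  -- consequences of not being bad
  have hgood : ∀ x : List Bool, n0 ≤ x.length → ¬ InRange R (vx (pM M) R x) ∧
      (∀ ζ : List Bool, ζ.length ≤ x.length → fo M (pM M) R x = some ζ →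
        ConfA M R x (some ζ) ∧ ConfB M R x (some ζ)) ∧
      (∀ x' : List Bool, x'.length ≤ x.length → x' ≠ x → fo M (pM M) R x = fo M (pM M) R x' →
        ConfA M R x (fo M (pM M) R x') ∧ ConfB M R x (fo M (pM M) R x')) := by
    intro x hx
    have h1 := hn0 x.length hx
    unfold Bad at h1
    simp only [Set.mem_iUnion, not_exists] at h1
    have h2 := h1 x (mem_sEq.2 rfl)
    rw [Set.mem_union, Set.mem_union] at h2
    push Not at h2
    obtain ⟨h3, h4, h5⟩ := h2
    refine ⟨h3, fun ζ hζ hfo => ?_, fun x' hx' hne hfo => ?_⟩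
    · simp only [Set.mem_iUnion, not_exists] at h4
      by_contra hc
      exact h4 ζ (mem_sLe.2 hζ) ⟨hfo, hc⟩
    · simp only [Set.mem_iUnion, not_exists] at h5
      by_contra hc
      exact h5 x' (Finset.mem_erase.2 ⟨hne, mem_sLe.2 hx'⟩) ⟨hfo, hc⟩
  -- no confusion
  have hconf : ∀ (x : List Bool) (z : Option (List Bool)), ¬ (ConfA M R x z ∧ ConfB M R x z) := by
    rintro x z ⟨⟨v1, v2, h1, h2, h3, h4, h5⟩, ⟨w1, w2, h6, h7, h8⟩⟩
    rw [← h5, hM, hM, Option.some_inj] at h8
    have h9 : pairBits x (v1 ++ v2) ∉ CB R B' := by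
      rw [mem_CB R B' x v1 v2 h1 h2]
      rintro (h | h)
      · exact h3 h.2
      · exact h4 h
    have h10 : pairBits x (G R w1 ++ G R w2) ∈ CB R B' := by
      rw [mem_CB R B' x _ _ (by rw [length_G, h6]) (by rw [length_G, h7])]
      exact Or.inr ⟨w2, rfl⟩
    rw [hFA] at h9 h10
    rw [h8] at h10
    exact h9 h10
  have hfo : ∀ x, fo M (pM M) R x = some (F (inst (pM M) R x)) := fun x => hM _
  -- injectivity for long strings
  have hinj : ∀ x x' : List Bool, n0 ≤ x.length → x'.length ≤ x.length →
      F (inst (pM M) R x) = F (inst (pM M) R x') → x' = x := by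
    intro x x' hx hx' he
    by_contra hne
    have h1 := (hgood x hx).2.2 x' hx' hne (by rw [hfo, hfo, he])
    exact hconf x _ h1
  have hlen : ∀ x : List Bool, n0 ≤ x.length → x.length < (F (inst (pM M) R x)).length := by
    intro x hx
    by_contra hc
    push Not at hc
    have h1 := (hgood x hx).2.1 (F (inst (pM M) R x)) hc (hfo x)
    exact hconf x _ h1
  -- the reduction
  have hpl : ∀ x : List Bool, (pairBits x (List.replicate n0 true)).length =
      2 * x.length + 1 + n0 := by
    intro x
    rw [length_pairBits, List.length_replicate]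
  refine ⟨fun x => F (inst (pM M) R (pairBits x (List.replicate n0 true))), ?_, ?_, ?_, ?_⟩
  · have h1 := hFP R F (pM M) hF
    have hid : IsFP R (fun x : List Bool => x) :=
      IsFP.tt (Q := fun _ => []) (H := fun p => p.1) (NPC.Poly.const _) (NPC.Poly.fst NPC.Poly.id)
    have h2 := IsFP.seq hid h1 (φ := fun p => pairBits p.1 (List.replicate n0 true))
      (ψ := fun p => p.2.2) ?_ (NPC.Poly.snd (NPC.Poly.snd NPC.Poly.id))
    · exact h2
    · have hp : NPC.Poly (fun p : List Bool × List Bool => p.1.flatMap (fun b => [true, b])) :=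
        NPC.Poly.flatMap (F := fun (_ : List Bool × List Bool) (b : Bool) => [true, b])
          (NPC.Poly.fst NPC.Poly.id)
          (NPC.Poly.cons (NPC.Poly.const true)
            (NPC.Poly.cons (NPC.Poly.snd NPC.Poly.id) (NPC.Poly.const [])))
      exact NPC.Poly.append hp (NPC.Poly.const (false :: List.replicate n0 true))
  · intro x x' he
    have h1 := hpl x
    have h2 := hpl x'
    have key : pairBits x (List.replicate n0 true) = pairBits x' (List.replicate n0 true) := by
      rcases le_total x.length x'.length with hle | hle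
      · exact hinj _ _ (by omega) (by omega) he.symm
      · exact (hinj _ _ (by omega) (by omega) he).symm
    exact (pairBits_inj key).1
  · intro x
    have h1 := hpl x
    have h2 := hlen (pairBits x (List.replicate n0 true)) (by omega)
    show x.length < (F (inst (pM M) R (pairBits x (List.replicate n0 true)))).length
    omega
  · intro x
    have h1 := hpl x
    have h2 := (hgood (pairBits x (List.replicate n0 true)) (by omega)).1
    show x ∈ B ↔ F (inst (pM M) R (pairBits x (List.replicate n0 true))) ∈ A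
    rw [← hFA, inst_mem R (pM M) B' _ h2, hB', Set.mem_ofPred_eq, unpair_pairBits]

/-- `NP`. -/
theorem final_np (T : Tasks) (hFP : TaskFP) (hNP : TaskNP) : ∀ᵐ R ∂randomOracle,
    ∀ A : Set (List Bool), NPHardRel R A → ∀ B, IsNP R B → OneLi R B A := by
  filter_upwards [oneLi T hFP] with R hR A hA B hB
  exact hR A B (hA _ (hNP R _ (hNP R B hB).2).1)

/-- `PSPACE`. -/
theorem final_ps (T : Tasks) (hFP : TaskFP) (hPS : TaskPS) (hPS2 : TaskPS2) :
    ∀ᵐ R ∂randomOracle, ∀ A : Set (List Bool),
      (∀ B, Pool.Agent.H620R2.Gauge.IsPSPACE R B → Red R B A) →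
      ∀ B, Pool.Agent.H620R2.Gauge.IsPSPACE R B → OneLi R B A := by
  filter_upwards [oneLi T hFP] with R hR A hA B hB
  exact hR A B (hA _ (hPS R _ (hPS2 R B hB)))

end Pool.Agent.H910R3.ISO
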