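import Pool.Agent.H628R3.RO.A1
import Pool.Agent.H628R3.RO.A2
import Pool.Agent.H628R3.RO.M1
import Pool.Agent.H628R3.RO.M2
import Pool.Agent.H620R2.Gauge.Defs

/-!
# One-one reductions relative to a random oracle: definitions and tasks
-/

set_option autoImplicit false

namespace Pool.Agent.H910R3.ISO

open MeasureTheory Pool.Agent.NPC Pool.Agent.H628R3.RO

/-- The string where the bit number `j` of `G w` is found. -/
def loc (w : List Bool) (j : ℕ) : List Bool := w ++ (List.replicate j true ++ [false])

/-- A length doubling random function. -/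
def G (R : Oracle) (w : List Bool) : List Bool :=
  (List.range (2 * w.length)).map fun j => R (loc w j)

/-- `v` is in the range of `G`. -/
def InRange (R : Oracle) (v : List Bool) : Prop := ∃ w, G R w = v

/-- the length of the arguments of `G` used for inputs of length `n` -/
def mm (n : ℕ) : ℕ := 4 * (n + 1)

/-- The set `(x ∈ B and u₁ in the range of G) or (u₂ in the range of G)`. -/
def CB (R : Oracle) (B : Set (List Bool)) : Set (List Bool) :=
  {s | ∃ x u1 u2 : List Bool, s = pairBits x (u1 ++ u2) ∧ u1.length = 2 * mm x.length ∧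
    u2.length = 2 * mm x.length ∧ ((x ∈ B ∧ InRange R u1) ∨ InRange R u2)}

/-- Hidden position number `i` for the input `x`. -/
def hid (p : Polynomial ℕ) (x : List Bool) (i : ℕ) : List Bool :=
  pairBits x (List.replicate i true ++ false :: List.replicate (p.eval x.length) false)

/-- `k` hidden bits, from number `a` on -/
def hb (p : Polynomial ℕ) (R : Oracle) (x : List Bool) (a k : ℕ) : List Bool :=
  (List.range k).map fun i => R (hid p x (a + i))

/-- the hidden argument of `G` -/
def wx (p : Polynomial ℕ) (R : Oracle) (x : List Bool) : List Bool := hb p R x 0 (mm x.length)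

/-- the hidden random string -/
def vx (p : Polynomial ℕ) (R : Oracle) (x : List Bool) : List Bool :=
  hb p R x (mm x.length) (2 * mm x.length)

/-- the instance of `CB R B` for the input `x` -/
def inst (p : Polynomial ℕ) (R : Oracle) (x : List Bool) : List Bool :=
  pairBits x (G R (wx p R x) ++ vx p R x)

/-- the output of `M` on this instance -/
def fo (M : Alg) (p : Polynomial ℕ) (R : Oracle) (x : List Bool) : Option (List Bool) :=
  M.out R (inst p R x)

/-- `M` has output `z` on a negative instance -/
def ConfA (M : Alg) (R : Oracle) (x : List Bool) (z : Option (List Bool)) : Prop :=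
  ∃ v1 v2 : List Bool, v1.length = 2 * mm x.length ∧ v2.length = 2 * mm x.length ∧
    ¬ InRange R v1 ∧ ¬ InRange R v2 ∧ M.out R (pairBits x (v1 ++ v2)) = z

/-- `M` has output `z` on a positive instance -/
def ConfB (M : Alg) (R : Oracle) (x : List Bool) (z : Option (List Bool)) : Prop :=
  ∃ w1 w2 : List Bool, w1.length = mm x.length ∧ w2.length = mm x.length ∧
    M.out R (pairBits x (G R w1 ++ G R w2)) = z

section Abstract

open Finset

open Classical in
/-- Planting, first form. -/
def TaskPlantA : Prop := ∀ (W V U : Type) [Fintype W] [DecidableEq W] [Fintype V] [DecidableEq V]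
  [Fintype U] (E : (W → V) → V → U → Prop) (K κ : ℕ),
  (∀ g v u, (univ.filter fun w : W =>
    ∃ v1, ¬ (E (Function.update g w v1) v u ↔ E g v u)).card ≤ K) →
  Fintype.card V * (univ.filter fun t : (W → V) × W × U => E t.1 (t.1 t.2.1) t.2.2 ∧
      (univ.filter fun q : V × U => E t.1 q.1 q.2).card ≤ κ).card ≤
    Fintype.card (W → V) * (K * Fintype.card U * Fintype.card V + Fintype.card W * κ)

open Classical in
/-- Planting, second form. -/
def TaskPlantB : Prop := ∀ (W V U : Type) [Fintype W] [DecidableEq W] [Fintype V] [DecidableEq V]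
  [Fintype U] (E : (W → V) → V → U → Prop) (K : ℕ),
  (∀ g v u, (univ.filter fun w : W =>
    ∃ v1, ¬ (E (Function.update g w v1) v u ↔ E g v u)).card ≤ K) →
  Fintype.card W * (univ.filter fun t : (W → V) × V × U => E t.1 t.2.1 t.2.2 ∧
      ∀ w u, ¬ E t.1 (t.1 w) u).card ≤
    Fintype.card (W → V) * Fintype.card V * Fintype.card U * (2 * K + 1)

end Abstract

open Classical in
/-- the oracle `r` with the bits `b i` at the positions `pos i` -/
noncomputable def ovr {ι : Type} (pos : ι → List Bool) (b : ι → Bool) (r : Oracle) : Oracle :=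
  fun q => if h : ∃ i, pos i = q then b h.choose else r q

open Classical in
/-- Averaging over the bits at finitely many positions. -/
def TaskAvg : Prop := ∀ (ι : Type) [Fintype ι] (pos : ι → List Bool), Function.Injective pos →
  ∀ (S : Set Oracle), MeasurableSet S → ∀ B : ℝ,
  (∀ r, ((Finset.univ.filter fun b : ι → Bool => ovr pos b r ∈ S).card : ℝ) ≤
    B * 2 ^ Fintype.card ι) → prob S ≤ B

/-- `M` on inputs `⟨x, u⟩` with `|u| = 4 m` asks at most `K` questions, of length at most
`p(|x|)`. -/
def LocM (M : Alg) (p : Polynomial ℕ) (x : List Bool) (K : ℕ) : Prop :=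
  ∀ (R : Oracle) (u : List Bool), u.length = 4 * mm x.length → ∃ Q : Finset (List Bool),
    Q.card ≤ K ∧ (∀ q ∈ Q, q.length ≤ p.eval x.length) ∧
    ∀ R' : Oracle, (∀ q ∈ Q, R' q = R q) → M.out R' (pairBits x u) = M.out R (pairBits x u)

/-- `z` depends on at most `K` bits, of length at most `l`, none of them at a hidden position of
`x`. -/
def LocZ (z : Oracle → Option (List Bool)) (p : Polynomial ℕ) (x : List Bool) (K l : ℕ) : Prop :=
  ∀ R : Oracle, ∃ Q : Finset (List Bool), Q.card ≤ K ∧ (∀ q ∈ Q, q.length ≤ l) ∧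
    (∀ q ∈ Q, ∀ i, q ≠ hid p x i) ∧ ∀ R' : Oracle, (∀ q ∈ Q, R' q = R q) → z R' = z R

/-- The output on the hidden instance is unlikely to be `z` if `z` is not the output on a negative
instance. -/
def TaskCollA : Prop := ∀ (M : Alg) (p : Polynomial ℕ) (x : List Bool)
  (z : Oracle → Option (List Bool)) (K l : ℕ), 3 * mm x.length ≤ p.eval x.length →
  LocM M p x K → LocZ z p x K l →
  MeasurableSet {R | fo M p R x = z R ∧ ¬ ConfA M R x (z R)} ∧
  prob {R | fo M p R x = z R ∧ ¬ ConfA M R x (z R)} ≤ (2 * K + 2) / 2 ^ mm x.length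

/-- The output on the hidden instance is unlikely to be `z` if `z` is not the output on a positive
instance. -/
def TaskCollB : Prop := ∀ (M : Alg) (p : Polynomial ℕ) (x : List Bool)
  (z : Oracle → Option (List Bool)) (K l : ℕ), 3 * mm x.length ≤ p.eval x.length →
  LocM M p x K → LocZ z p x K l →
  MeasurableSet {R | fo M p R x = z R ∧ ¬ ConfB M R x (z R)} ∧
  prob {R | fo M p R x = z R ∧ ¬ ConfB M R x (z R)} ≤ (4 * K + 3) / 2 ^ mm x.length

/-- The hidden random string is unlikely to be in the range. -/
def TaskRange : Prop := ∀ (p : Polynomial ℕ) (x : List Bool), 3 * mm x.length ≤ p.eval x.length →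
  prob {R | InRange R (vx p R x)} ≤ 1 / 2 ^ mm x.length

/-- `fo` has a small certificate. -/
def TaskLocF : Prop := ∀ (M : Alg) (p : Polynomial ℕ) (x x' : List Bool) (K : ℕ),
  3 * mm x'.length ≤ p.eval x'.length → LocM M p x' K → x'.length ≤ x.length → x' ≠ x →
  LocZ (fun R => fo M p R x') p x (K + 5 * mm x'.length)
    (2 * x.length + 3 * mm x.length + 2 + p.eval x.length)

/-- The instance can be computed in polynomial time relative to the oracle. -/
def TaskFP : Prop := ∀ (R : Oracle) (F : List Bool → List Bool) (p : Polynomial ℕ), IsFP R F →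
  IsFP R (fun x => F (inst p R x))

/-- Closure of `NP`. -/
def TaskNP : Prop := ∀ (R : Oracle) (B : Set (List Bool)), IsNP R B →
  IsNP R (CB R B) ∧ IsNP R {s | (unpair s).1 ∈ B}

/-- Closure of `PSPACE`. -/
def TaskPS : Prop := ∀ (R : Oracle) (B : Set (List Bool)),
  Pool.Agent.H620R2.Gauge.IsPSPACE R B → Pool.Agent.H620R2.Gauge.IsPSPACE R (CB R B)

/-- Closure of `PSPACE`. -/
def TaskPS2 : Prop := ∀ (R : Oracle) (B : Set (List Bool)),
  Pool.Agent.H620R2.Gauge.IsPSPACE R B →
    Pool.Agent.H620R2.Gauge.IsPSPACE R {s | (unpair s).1 ∈ B}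

/-- A one-one, length-increasing reduction. -/
def OneLi (R : Oracle) (B A : Set (List Bool)) : Prop :=
  ∃ F : List Bool → List Bool, IsFP R F ∧ Function.Injective F ∧
    (∀ x : List Bool, x.length < (F x).length) ∧ ∀ x, x ∈ B ↔ F x ∈ A

end Pool.Agent.H910R3.ISO
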